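import Pool.Agent.Lib_helper77.EntCert

/-!
# From a certificate to a model and a substitution
-/

set_option autoImplicit false

namespace Pool.Agent.Lib_helper77.Ent

universe u v

section definable

variable {P : Type}

/-- `Q` is defined by a formula at all points whose world set lies below `m`. -/
def Dfn (V : P → ℕ → Prop) (m : ℕ) (Q : Set ℕ → Set (Form P) → ℕ → Prop) : Prop :=
  ∃ θ : Form P, ∀ (X : Set ℕ) (S : Set (Form P)) (w : ℕ), w ∈ X → (∀ v ∈ X, v < m) →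
    (sat V θ X S w ↔ Q X S w)

theorem Dfn.not {V : P → ℕ → Prop} {m : ℕ} {Q : Set ℕ → Set (Form P) → ℕ → Prop}
    (h : Dfn V m Q) : Dfn V m (fun X S w => ¬ Q X S w) := by
  obtain ⟨θ, hθ⟩ := h
  exact ⟨.neg θ, fun X S w hw hX => not_congr (hθ X S w hw hX)⟩

theorem Dfn.and {V : P → ℕ → Prop} {m : ℕ} {Q R : Set ℕ → Set (Form P) → ℕ → Prop}
    (h : Dfn V m Q) (h' : Dfn V m R) : Dfn V m (fun X S w => Q X S w ∧ R X S w) := by
  obtain ⟨θ, hθ⟩ := h
  obtain ⟨η, hη⟩ := h'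
  exact ⟨.and θ η, fun X S w hw hX => and_congr (hθ X S w hw hX) (hη X S w hw hX)⟩

theorem Dfn.of_iff {V : P → ℕ → Prop} {m : ℕ} {Q R : Set ℕ → Set (Form P) → ℕ → Prop}
    (h : Dfn V m Q) (h' : ∀ X S w, w ∈ X → (∀ v ∈ X, v < m) → (Q X S w ↔ R X S w)) :
    Dfn V m R := by
  obtain ⟨θ, hθ⟩ := h
  exact ⟨θ, fun X S w hw hX => (hθ X S w hw hX).trans (h' X S w hw hX)⟩

theorem Dfn.or {V : P → ℕ → Prop} {m : ℕ} {Q R : Set ℕ → Set (Form P) → ℕ → Prop}
    (h : Dfn V m Q) (h' : Dfn V m R) : Dfn V m (fun X S w => Q X S w ∨ R X S w) :=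
  ((h.not.and h'.not).not).of_iff (fun X S w _ _ => by tauto)

theorem Dfn.false (V : P → ℕ → Prop) (m : ℕ) (q : P) :
    Dfn V m (fun _ _ _ => False) :=
  ⟨.and (.atom q) (.neg (.atom q)), fun X S w _ _ => by simp [sat]⟩

theorem Dfn.true (V : P → ℕ → Prop) (m : ℕ) (q : P) :
    Dfn V m (fun _ _ _ => True) :=
  (Dfn.false V m q).not.of_iff (fun _ _ _ _ _ => by tauto)

/-- A predicate that depends only on finitely many definable predicates is definable. -/
theorem Dfn.of_list (V : P → ℕ → Prop) (m : ℕ) (q : P)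
    (L : List (Set ℕ → Set (Form P) → ℕ → Prop)) :
    (∀ A ∈ L, Dfn V m A) → ∀ Q : Set ℕ → Set (Form P) → ℕ → Prop,
      (∀ X S w X' S' w', w ∈ X → (∀ v ∈ X, v < m) → w' ∈ X' → (∀ v ∈ X', v < m) →
        (∀ A ∈ L, (A X S w ↔ A X' S' w')) → Q X S w → Q X' S' w') →
      Dfn V m Q := by
  induction L with
  | nil =>
    intro _ Q hQ
    by_cases h : ∃ X S w, w ∈ X ∧ (∀ v ∈ X, v < m) ∧ Q X S w
    · obtain ⟨X, S, w, h1, h2, h3⟩ := h
      refine (Dfn.true V m q).of_iff fun X' S' w' h1' h2' => ?_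
      exact ⟨fun _ => hQ X S w X' S' w' h1 h2 h1' h2' (by simp) h3, fun _ => trivial⟩
    · refine (Dfn.false V m q).of_iff fun X' S' w' h1' h2' => ?_
      exact ⟨fun h' => h'.elim, fun h' => h ⟨X', S', w', h1', h2', h'⟩⟩
  | cons A L ih =>
    intro hA Q hQ
    have hA0 : Dfn V m A := hA A (by simp)
    have hL : ∀ B ∈ L, Dfn V m B := fun B hB => hA B (by simp [hB])
    have h1 : Dfn V m (fun X S w => ∃ X' S' w', w' ∈ X' ∧ (∀ v ∈ X', v < m) ∧ A X' S' w' ∧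
        (∀ B ∈ L, (B X S w ↔ B X' S' w')) ∧ Q X' S' w') := by
      refine ih hL _ ?_
      rintro X S w X1 S1 w1 _ _ _ _ hag ⟨X', S', w', k1, k2, k3, k4, k5⟩
      exact ⟨X', S', w', k1, k2, k3, fun B hB => (hag B hB).symm.trans (k4 B hB), k5⟩
    have h2 : Dfn V m (fun X S w => ∃ X' S' w', w' ∈ X' ∧ (∀ v ∈ X', v < m) ∧ ¬ A X' S' w' ∧
        (∀ B ∈ L, (B X S w ↔ B X' S' w')) ∧ Q X' S' w') := by
      refine ih hL _ ?_
      rintro X S w X1 S1 w1 _ _ _ _ hag ⟨X', S', w', k1, k2, k3, k4, k5⟩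
      exact ⟨X', S', w', k1, k2, k3, fun B hB => (hag B hB).symm.trans (k4 B hB), k5⟩
    refine ((hA0.and h1).or (hA0.not.and h2)).of_iff ?_
    intro X S w hw hX
    constructor
    · rintro (⟨a, X', S', w', k1, k2, k3, k4, k5⟩ | ⟨a, X', S', w', k1, k2, k3, k4, k5⟩)
      · refine hQ X' S' w' X S w k1 k2 hw hX ?_ k5
        intro B hB
        rcases List.mem_cons.1 hB with rfl | hB
        · exact ⟨fun _ => a, fun _ => k3⟩
        · exact (k4 B hB).symm
      · refine hQ X' S' w' X S w k1 k2 hw hX ?_ k5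
        intro B hB
        rcases List.mem_cons.1 hB with rfl | hB
        · exact ⟨fun h => absurd h k3, fun h => absurd h a⟩
        · exact (k4 B hB).symm
    · intro hq
      by_cases a : A X S w
      · exact Or.inl ⟨a, X, S, w, hw, hX, a, fun B _ => Iff.rfl, hq⟩
      · exact Or.inr ⟨a, X, S, w, hw, hX, a, fun B _ => Iff.rfl, hq⟩

/-- being the world `v` is definable -/
theorem Dfn.world (V : P → ℕ → Prop) (m : ℕ) (q : P)
    (hsep : ∃ Lp : List P, ∀ w < m, ∀ w' < m, (∀ p ∈ Lp, (V p w ↔ V p w')) → w = w') (v : ℕ) :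
    Dfn V m (fun _ _ w => w = v) := by
  obtain ⟨Lp, hLp⟩ := hsep
  refine Dfn.of_list V m q (Lp.map fun p => fun _ _ w => V p w) ?_ _ ?_
  · intro A hA
    obtain ⟨p, _, rfl⟩ := List.mem_map.1 hA
    exact ⟨.atom p, fun X S w _ _ => Iff.rfl⟩
  · intro X S w X' S' w' hw hX hw' hX' hag hwv
    have : w = w' := by
      refine hLp w (hX w hw) w' (hX' w' hw') fun p hp => ?_
      exact hag (fun _ _ w => V p w) (List.mem_map.2 ⟨p, hp, rfl⟩)
    rw [← this]; exact hwv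

/-- `v` being one of the current worlds is definable -/
theorem Dfn.alive (V : P → ℕ → Prop) (m : ℕ) (q : P)
    (hsep : ∃ Lp : List P, ∀ w < m, ∀ w' < m, (∀ p ∈ Lp, (V p w ↔ V p w')) → w = w') (v : ℕ) :
    Dfn V m (fun X _ _ => v ∈ X) := by
  obtain ⟨θ, hθ⟩ := Dfn.world V m q hsep v
  refine ⟨.neg (.know (.neg θ)), fun X S w hw hX => ?_⟩
  simp only [sat]
  constructor
  · intro h
    by_contra hv
    apply h
    intro u hu hsu
    rw [hθ X S u hu hX] at hsu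
    exact hv (hsu ▸ hu)
  · intro hv h
    exact h v hv ((hθ X S v hv hX).2 rfl)

/-- The requirement on the formula that replaces a free class. -/
def Spec (V : P → ℕ → Prop) (n m : ℕ) (rk : ℕ → ℕ) (tv : ℕ → ℕ → ℕ → ℕ → Prop)
    (f : ℕ → Form P) (c : ℕ) (θ : Form P) : Prop :=
  ∀ (X : Set ℕ) (S : Set (Form P)) (w : ℕ), w ∈ X → (∀ v ∈ X, v < m) →
    (sat V θ X S w ↔ ∃ x < 2 ^ m, ∃ r < 2 ^ (n + 1),
      (∀ v < m, (x.testBit v = true ↔ v ∈ X)) ∧
      (∀ s < n + 1, (r.testBit s = true ↔ rk s < rk c ∧ f s ∈ S)) ∧ tv c x r w)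

theorem Spec_exists (V : P → ℕ → Prop) (n m : ℕ) (q : P) (rk : ℕ → ℕ)
    (tv : ℕ → ℕ → ℕ → ℕ → Prop) (f : ℕ → Form P) (c : ℕ)
    (hsep : ∃ Lp : List P, ∀ w < m, ∀ w' < m, (∀ p ∈ Lp, (V p w ↔ V p w')) → w = w') :
    ∃ θ, Spec V n m rk tv f c θ := by
  have key : Dfn V m (fun X S w => ∃ x < 2 ^ m, ∃ r < 2 ^ (n + 1),
      (∀ v < m, (x.testBit v = true ↔ v ∈ X)) ∧
      (∀ s < n + 1, (r.testBit s = true ↔ rk s < rk c ∧ f s ∈ S)) ∧ tv c x r w) := by
    refine Dfn.of_list V m q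
      (((List.range m).map fun v => fun _ _ w => w = v) ++
        (((List.range m).map fun v => fun X _ _ => v ∈ X) ++
          ((List.range (n + 1)).map fun s => fun _ S _ => f s ∈ S))) ?_ _ ?_
    · intro A hA
      rcases List.mem_append.1 hA with h | h
      · obtain ⟨v, _, rfl⟩ := List.mem_map.1 h
        exact Dfn.world V m q hsep v
      · rcases List.mem_append.1 h with h | h
        · obtain ⟨v, _, rfl⟩ := List.mem_map.1 h
          exact Dfn.alive V m q hsep v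
        · obtain ⟨s, _, rfl⟩ := List.mem_map.1 h
          exact ⟨.ent (f s), fun X S w _ _ => Iff.rfl⟩
    · rintro X S w X' S' w' hw hX hw' hX' hag ⟨x, hx, r, hr, k1, k2, k3⟩
      have a1 : w' = w := by
        have := hag (fun _ _ u => u = w) (List.mem_append.2 (Or.inl (List.mem_map.2
          ⟨w, List.mem_range.2 (hX w hw), rfl⟩)))
        exact this.1 rfl
      have a2 : ∀ v < m, (v ∈ X ↔ v ∈ X') := by
        intro v hv
        exact hag (fun X _ _ => v ∈ X) (List.mem_append.2 (Or.inr (List.mem_append.2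
          (Or.inl (List.mem_map.2 ⟨v, List.mem_range.2 hv, rfl⟩)))))
      have a3 : ∀ s < n + 1, (f s ∈ S ↔ f s ∈ S') := by
        intro s hs
        exact hag (fun _ S _ => f s ∈ S) (List.mem_append.2 (Or.inr (List.mem_append.2
          (Or.inr (List.mem_map.2 ⟨s, List.mem_range.2 hs, rfl⟩)))))
      refine ⟨x, hx, r, hr, fun v hv => (k1 v hv).trans (a2 v hv), fun s hs => ?_, ?_⟩
      · rw [k2 s hs, a3 s hs]
      · rw [a1]; exact k3
  exact key

end definable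

section backward

variable {P : Type}

/-- distinguishing marks: `¬ ... ¬ q` -/
def tagF (q : P) : ℕ → Form P
  | 0 => .atom q
  | i + 1 => .neg (tagF q i)

theorem tagF_inj (q : P) : ∀ i j : ℕ, tagF q i = tagF q j → i = j
  | 0, 0, _ => rfl
  | 0, j + 1, h => by simp [tagF] at h
  | i + 1, 0, h => by simp [tagF] at h
  | i + 1, j + 1, h => by
    have h' : tagF q i = tagF q j := by
      simp only [tagF] at h
      injection h
    rw [tagF_inj q i j h']

open Classical in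
/-- canonical representative of the class of `t`; a composite one if there is any -/
noncomputable def repr (n : ℕ) (eq : ℕ → ℕ → Prop) (t : ℕ) : ℕ :=
  if (∃ s, s < n + 1 ∧ s % 9 ≠ 0 ∧ eq s t) then sInf {s | s < n + 1 ∧ s % 9 ≠ 0 ∧ eq s t}
  else sInf {s | s < n + 1 ∧ eq s t}

section
variable (V : P → ℕ → Prop) (q : P) (n m : ℕ) (eq : ℕ → ℕ → Prop) (rk : ℕ → ℕ)
  (tv : ℕ → ℕ → ℕ → ℕ → Prop)

/-- The formula assigned to the class with representative `c`. -/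
noncomputable def GG (c : ℕ) : Form P :=
  let f : ℕ → Form P := fun s =>
    if _h : rk (repr n eq s) < rk c then GG (repr n eq s) else .atom q
  if c % 9 ≠ 0 then mk f c
  else .add (tagF q c) (@Classical.epsilon _ ⟨.atom q⟩ (Spec V n m rk tv f c))
termination_by rk c

/-- The formula assigned to `t`. -/
noncomputable def gg (t : ℕ) : Form P := GG V q n m eq rk tv (repr n eq t)

end

theorem repr_spec {n m : ℕ} {eq : ℕ → ℕ → Prop} {rk : ℕ → ℕ} {lev : ℕ → ℕ → Prop}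
    {tv : ℕ → ℕ → ℕ → ℕ → Prop} (C : Cert n m eq rk lev tv) (t : ℕ) (ht : t < n + 1) :
    repr n eq t < n + 1 ∧ eq (repr n eq t) t ∧
      (repr n eq t % 9 = 0 → ∀ s < n + 1, eq s t → s % 9 = 0) := by
  unfold repr
  by_cases h : ∃ s, s < n + 1 ∧ s % 9 ≠ 0 ∧ eq s t
  · rw [if_pos h]
    have := Nat.sInf_mem (s := {s | s < n + 1 ∧ s % 9 ≠ 0 ∧ eq s t}) h
    exact ⟨this.1, this.2.2, fun h0 => absurd h0 this.2.1⟩
  · rw [if_neg h]
    have := Nat.sInf_mem (s := {s | s < n + 1 ∧ eq s t}) ⟨t, ht, C.refl t ht⟩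
    refine ⟨this.1, this.2, fun _ s hs hst => ?_⟩
    by_contra h0
    exact h ⟨s, hs, h0, hst⟩

theorem repr_eq {n m : ℕ} {eq : ℕ → ℕ → Prop} {rk : ℕ → ℕ} {lev : ℕ → ℕ → Prop}
    {tv : ℕ → ℕ → ℕ → ℕ → Prop} (C : Cert n m eq rk lev tv) (s t : ℕ) (hs : s < n + 1)
    (ht : t < n + 1) (hst : eq s t) : repr n eq s = repr n eq t := by
  have key : ∀ u, u < n + 1 → (eq u s ↔ eq u t) := by
    intro u hu
    exact ⟨fun h => C.trans u hu s hs t ht h hst,
      fun h => C.trans u hu t ht s hs h (C.symm s hs t ht hst)⟩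
  have e1 : {u | u < n + 1 ∧ u % 9 ≠ 0 ∧ eq u s} = {u | u < n + 1 ∧ u % 9 ≠ 0 ∧ eq u t} := by
    ext u
    constructor
    · rintro ⟨h1, h2, h3⟩; exact ⟨h1, h2, (key u h1).1 h3⟩
    · rintro ⟨h1, h2, h3⟩; exact ⟨h1, h2, (key u h1).2 h3⟩
  have e2 : {u | u < n + 1 ∧ eq u s} = {u | u < n + 1 ∧ eq u t} := by
    ext u
    constructor
    · rintro ⟨h1, h3⟩; exact ⟨h1, (key u h1).1 h3⟩
    · rintro ⟨h1, h3⟩; exact ⟨h1, (key u h1).2 h3⟩
  have e3 : (∃ u, u < n + 1 ∧ u % 9 ≠ 0 ∧ eq u s) ↔ (∃ u, u < n + 1 ∧ u % 9 ≠ 0 ∧ eq u t) := by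
    constructor
    · rintro ⟨u, h1, h2, h3⟩; exact ⟨u, h1, h2, (key u h1).1 h3⟩
    · rintro ⟨u, h1, h2, h3⟩; exact ⟨u, h1, h2, (key u h1).2 h3⟩
  unfold repr
  by_cases h : ∃ u, u < n + 1 ∧ u % 9 ≠ 0 ∧ eq u s
  · rw [if_pos h, if_pos (e3.1 h), e1]
  · rw [if_neg h, if_neg (fun h' => h (e3.2 h')), e2]

end backward

end Pool.Agent.Lib_helper77.Ent
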