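import Pool.Agent.Lib_helper77.EntBwd

/-!
# From a certificate to a model and a substitution, continued
-/

set_option autoImplicit false

namespace Pool.Agent.Lib_helper77.Ent

universe u v

theorem exists_bits (N : ℕ) (Q : ℕ → Prop) :
    ∃ a < 2 ^ N, ∀ i < N, (a.testBit i = true ↔ Q i) := by
  classical
  refine ⟨Nat.ofBits (fun i : Fin N => decide (Q i)), Nat.ofBits_lt_two_pow _, ?_⟩
  intro i hi
  rw [Nat.testBit_ofBits_lt _ _ hi]
  simp

theorem eq_of_bits {N a b : ℕ} (ha : a < 2 ^ N) (hb : b < 2 ^ N)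
    (h : ∀ i < N, (a.testBit i = true ↔ b.testBit i = true)) : a = b := by
  refine Nat.eq_of_testBit_eq fun i => ?_
  by_cases hi : i < N
  · have := h i hi
    cases h1 : a.testBit i <;> cases h2 : b.testBit i <;> simp_all
  · have h1 : a < 2 ^ i := ha.trans_le (Nat.pow_le_pow_right (by norm_num) (not_lt.1 hi))
    have h2 : b < 2 ^ i := hb.trans_le (Nat.pow_le_pow_right (by norm_num) (not_lt.1 hi))
    rw [Nat.testBit_lt_two_pow h1, Nat.testBit_lt_two_pow h2]

section backward

variable {P : Type}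

theorem cases9 (t : ℕ) (h0 : t % 9 ≠ 0) : (t % 9 = 1 ∨ t % 9 = 2 ∨ t % 9 = 3) ∨
      (t % 9 = 4 ∨ t % 9 = 5 ∨ t % 9 = 6 ∨ t % 9 = 7 ∨ t % 9 = 8) := by omega

theorem mk_congr (f g : ℕ → Form P) (s t : ℕ) (h0 : s % 9 ≠ 0) (hst : s % 9 = t % 9)
    (h1 : s % 9 < 4 → f (arg s) = g (arg t))
    (h2 : ¬ s % 9 < 4 → f (lft s) = g (lft t) ∧ f (rgt s) = g (rgt t)) : mk f s = mk g t := by
  have hs : (s % 9 = 1 ∨ s % 9 = 2 ∨ s % 9 = 3) ∨
      (s % 9 = 4 ∨ s % 9 = 5 ∨ s % 9 = 6 ∨ s % 9 = 7 ∨ s % 9 = 8) := by omega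
  unfold mk
  rw [← hst]
  rcases hs with hs | hs
  · have h3 := h1 (by omega)
    rcases hs with hs | hs | hs <;> simp [hs, h3]
  · obtain ⟨h3, h4⟩ := h2 (by omega)
    rcases hs with hs | hs | hs | hs | hs <;> simp [hs, h3, h4]

theorem mk_inj (f : ℕ → Form P) (s t : ℕ) (hs0 : s % 9 ≠ 0) (ht0 : t % 9 ≠ 0)
    (h : mk f s = mk f t) : s % 9 = t % 9 ∧ (s % 9 < 4 → f (arg s) = f (arg t)) ∧
      (¬ s % 9 < 4 → f (lft s) = f (lft t) ∧ f (rgt s) = f (rgt t)) := by
  have hs : (s % 9 = 1 ∨ s % 9 = 2 ∨ s % 9 = 3) ∨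
      (s % 9 = 4 ∨ s % 9 = 5 ∨ s % 9 = 6 ∨ s % 9 = 7 ∨ s % 9 = 8) := by omega
  have ht : (t % 9 = 1 ∨ t % 9 = 2 ∨ t % 9 = 3) ∨
      (t % 9 = 4 ∨ t % 9 = 5 ∨ t % 9 = 6 ∨ t % 9 = 7 ∨ t % 9 = 8) := by omega
  unfold mk at h
  rcases hs with (h1 | h1 | h1) | (h1 | h1 | h1 | h1 | h1) <;>
  rcases ht with (h2 | h2 | h2) | (h2 | h2 | h2 | h2 | h2) <;>
  simp only [h1, h2] at h <;>
  simp only [Nat.reduceEqDiff, if_true, if_false] at h <;>
  first
    | (injection h; done)
    | (injection h with hst1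
       exact ⟨by omega, fun _ => hst1, fun hc => absurd hc (by omega)⟩)
    | (injection h with hst1 hst2
       exact ⟨by omega, fun hc => absurd hc (by omega), fun _ => ⟨hst1, hst2⟩⟩)

theorem mk_ne_atom (f : ℕ → Form P) (s : ℕ) (q : P) : mk f s ≠ .atom q := by
  unfold mk
  split_ifs <;> simp

theorem mk_eq_neg (f : ℕ → Form P) (s : ℕ) (φ : Form P) (h : mk f s = .neg φ) :
    s % 9 = 1 ∧ f (arg s) = φ := by
  unfold mk at h
  split_ifs at h with h1
  injection h with h2
  exact ⟨h1, h2⟩

theorem mk_eq_add (f : ℕ → Form P) (s : ℕ) (φ ψ : Form P) (h : mk f s = .add φ ψ) :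
    s % 9 = 6 ∧ f (lft s) = φ ∧ f (rgt s) = ψ := by
  unfold mk at h
  split_ifs at h with h1 h2 h3 h4 h5 h6
  injection h with h7 h8
  exact ⟨h6, h7, h8⟩

section

variable {V : P → ℕ → Prop} {q : P} {n m : ℕ} {eq : ℕ → ℕ → Prop} {rk : ℕ → ℕ}
  {lev : ℕ → ℕ → Prop} {tv : ℕ → ℕ → ℕ → ℕ → Prop}

theorem gg_congr (C : Cert n m eq rk lev tv) (s t : ℕ) (hs : s < n + 1) (ht : t < n + 1)
    (hst : eq s t) : gg V q n m eq rk tv s = gg V q n m eq rk tv t := by
  unfold gg; rw [repr_eq C s t hs ht hst]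

theorem rk_repr (C : Cert n m eq rk lev tv) (s : ℕ) (hs : s < n + 1) :
    rk (repr n eq s) = rk s := by
  obtain ⟨h1, h2, _⟩ := repr_spec C s hs
  exact C.rk_eq _ h1 _ hs h2

theorem GG_mk (C : Cert n m eq rk lev tv) (c : ℕ) (hc : c < n + 1) (h0 : c % 9 ≠ 0) :
    GG V q n m eq rk tv c = mk (gg V q n m eq rk tv) c := by
  rw [GG]
  simp only [if_pos h0]
  obtain ⟨r1, r2⟩ := C.rk_lt c hc h0
  refine mk_congr _ _ _ _ h0 rfl ?_ ?_
  · intro h4
    have ha : arg c < n + 1 := (arg_le c).trans_lt hc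
    rw [dif_pos (by rw [rk_repr C _ ha]; exact r1 h4)]
    rfl
  · intro h4
    have hl : lft c < n + 1 := (lft_le c).trans_lt hc
    have hr : rgt c < n + 1 := (rgt_le c).trans_lt hc
    rw [dif_pos (by rw [rk_repr C _ hl]; exact (r2 h4).1),
      dif_pos (by rw [rk_repr C _ hr]; exact (r2 h4).2)]
    exact ⟨rfl, rfl⟩

theorem gg_repr_mk (C : Cert n m eq rk lev tv) (t : ℕ) (ht : t < n + 1)
    (h0 : repr n eq t % 9 ≠ 0) :
    gg V q n m eq rk tv t = mk (gg V q n m eq rk tv) (repr n eq t) :=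
  GG_mk C _ (repr_spec C t ht).1 h0

theorem gg_mk (C : Cert n m eq rk lev tv) (t : ℕ) (ht : t < n + 1) (h0 : t % 9 ≠ 0) :
    gg V q n m eq rk tv t = mk (gg V q n m eq rk tv) t := by
  obtain ⟨h1, h2, h3⟩ := repr_spec C t ht
  have h4 : repr n eq t % 9 ≠ 0 := fun h => h0 (h3 h t ht (C.refl t ht))
  rw [gg_repr_mk C t ht h4]
  obtain ⟨i1, i2, i3⟩ := C.inj _ h1 t ht h4 h0 h2
  refine mk_congr _ _ _ _ h4 i1 ?_ ?_
  · intro h5
    exact gg_congr C _ _ ((arg_le _).trans_lt h1) ((arg_le _).trans_lt ht) (i2 h5)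
  · intro h5
    exact ⟨gg_congr C _ _ ((lft_le _).trans_lt h1) ((lft_le _).trans_lt ht) (i3 h5).1,
      gg_congr C _ _ ((rgt_le _).trans_lt h1) ((rgt_le _).trans_lt ht) (i3 h5).2⟩

theorem gg_free (C : Cert n m eq rk lev tv)
    (hsep : ∃ Lp : List P, ∀ w < m, ∀ w' < m, (∀ p ∈ Lp, (V p w ↔ V p w')) → w = w')
    (t : ℕ) (ht : t < n + 1) (h0 : repr n eq t % 9 = 0) :
    ∃ θ, gg V q n m eq rk tv t = .add (tagF q (repr n eq t)) θ ∧
      ∀ (X : Set ℕ) (S : Set (Form P)) (w : ℕ), w ∈ X → (∀ v ∈ X, v < m) →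
        (sat V θ X S w ↔ ∃ x < 2 ^ m, ∃ r < 2 ^ (n + 1),
          (∀ v < m, (x.testBit v = true ↔ v ∈ X)) ∧
          (∀ s < n + 1, (r.testBit s = true ↔ rk s < rk t ∧ gg V q n m eq rk tv s ∈ S)) ∧
            tv (repr n eq t) x r w) := by
  obtain ⟨h1, h2, h3⟩ := repr_spec C t ht
  unfold gg
  rw [GG]
  simp only [h0, ne_eq, not_true_eq_false, if_false]
  refine ⟨_, rfl, ?_⟩
  intro X S w hw hX
  have key := Classical.epsilon_spec (Spec_exists V n m q rk tv
    (fun s => if _h : rk (repr n eq s) < rk (repr n eq t) then GG V q n m eq rk tv (repr n eq s)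
      else .atom q) (repr n eq t) hsep) X S w hw hX
  rw [key]
  refine exists_congr fun x => and_congr_right fun hx => exists_congr fun r =>
    and_congr_right fun hr => and_congr_right fun _ => and_congr_left fun _ =>
      forall₂_congr fun s hs => ?_
  refine iff_congr Iff.rfl ?_
  have ks := rk_repr C s hs
  have kt := rk_repr C t ht
  constructor
  · rintro ⟨k1, k2⟩
    have k3 : rk (repr n eq s) < rk (repr n eq t) := by rw [ks]; exact k1
    beta_reduce at k2
    rw [dif_pos k3] at k2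
    exact ⟨by rw [← kt]; exact k1, k2⟩
  · rintro ⟨k1, k2⟩
    have k3 : rk (repr n eq s) < rk (repr n eq t) := by rw [ks, kt]; exact k1
    beta_reduce
    rw [dif_pos k3]
    exact ⟨by rw [kt]; exact k1, k2⟩

theorem gg_ne_tag (C : Cert n m eq rk lev tv)
    (hsep : ∃ Lp : List P, ∀ w < m, ∀ w' < m, (∀ p ∈ Lp, (V p w ↔ V p w')) → w = w') (N : ℕ) :
    ∀ t < n + 1, rk t < N → ∀ i, gg V q n m eq rk tv t ≠ tagF q i := by
  induction N with
  | zero => intro t _ h; omega
  | succ N ih =>
    intro t ht hN i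
    obtain ⟨h1, h2, h3⟩ := repr_spec C t ht
    by_cases h0 : repr n eq t % 9 = 0
    · obtain ⟨θ, hθ, _⟩ := gg_free (V := V) (q := q) C hsep t ht h0
      rw [hθ]
      cases i <;> simp [tagF]
    · rw [gg_repr_mk C t ht h0]
      cases i with
      | zero => exact mk_ne_atom _ _ _
      | succ i =>
        intro hcon
        obtain ⟨k1, k2⟩ := mk_eq_neg _ _ _ hcon
        refine ih (arg (repr n eq t)) ((arg_le _).trans_lt h1) ?_ i k2
        have := (C.rk_lt _ h1 h0).1 (by omega)
        rw [rk_repr C t ht] at this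
        omega

theorem gg_inj (C : Cert n m eq rk lev tv)
    (hsep : ∃ Lp : List P, ∀ w < m, ∀ w' < m, (∀ p ∈ Lp, (V p w ↔ V p w')) → w = w') (N : ℕ) :
    ∀ s < n + 1, ∀ t < n + 1, rk s < N →
      gg V q n m eq rk tv s = gg V q n m eq rk tv t → eq s t := by
  induction N with
  | zero => intro s _ t _ h; omega
  | succ N ih =>
    intro s hs t ht hN hst
    obtain ⟨h1, h2, h3⟩ := repr_spec C s hs
    obtain ⟨h1', h2', h3'⟩ := repr_spec C t ht
    have fin : eq (repr n eq s) (repr n eq t) → eq s t := fun h =>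
      C.trans s hs _ h1' t ht (C.trans s hs _ h1 _ h1' (C.symm _ h1 _ hs h2) h) h2'
    by_cases h0 : repr n eq s % 9 = 0 <;> by_cases h0' : repr n eq t % 9 = 0
    · obtain ⟨θ, hθ, _⟩ := gg_free (V := V) (q := q) C hsep s hs h0
      obtain ⟨θ', hθ', _⟩ := gg_free (V := V) (q := q) C hsep t ht h0'
      rw [hθ, hθ'] at hst
      injection hst with k1 _
      have := tagF_inj q _ _ k1
      apply fin
      rw [this]
      exact C.refl _ h1'
    · obtain ⟨θ, hθ, _⟩ := gg_free (V := V) (q := q) C hsep s hs h0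
      rw [hθ, gg_repr_mk C t ht h0'] at hst
      obtain ⟨_, k1, _⟩ := mk_eq_add _ _ _ _ hst.symm
      exact absurd k1 (gg_ne_tag C hsep _ _ ((lft_le _).trans_lt h1') (Nat.lt_succ_self _) _)
    · obtain ⟨θ', hθ', _⟩ := gg_free (V := V) (q := q) C hsep t ht h0'
      rw [hθ', gg_repr_mk C s hs h0] at hst
      obtain ⟨_, k1, _⟩ := mk_eq_add _ _ _ _ hst
      exact absurd k1 (gg_ne_tag C hsep _ _ ((lft_le _).trans_lt h1) (Nat.lt_succ_self _) _)
    · rw [gg_repr_mk C s hs h0, gg_repr_mk C t ht h0'] at hst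
      obtain ⟨k1, k2, k3⟩ := mk_inj _ _ _ h0 h0' hst
      apply fin
      obtain ⟨r1, r2⟩ := C.rk_lt _ h1 h0
      rw [rk_repr C s hs] at r1 r2
      refine C.cong _ h1 _ h1' h0 k1 ?_ ?_
      · intro h5
        exact ih _ ((arg_le _).trans_lt h1) _ ((arg_le _).trans_lt h1')
          (by have := r1 h5; omega) (k2 h5)
      · intro h5
        have := r2 h5
        exact ⟨ih _ ((lft_le _).trans_lt h1) _ ((lft_le _).trans_lt h1') (by omega) (k3 h5).1,
          ih _ ((rgt_le _).trans_lt h1) _ ((rgt_le _).trans_lt h1') (by omega) (k3 h5).2⟩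

/-- the worlds described by the bits of `x` -/
def Xb (m x : ℕ) : Set ℕ := {v | v < m ∧ x.testBit v = true}

theorem gg_truth (C : Cert n m eq rk lev tv)
    (hsep : ∃ Lp : List P, ∀ w < m, ∀ w' < m, (∀ p ∈ Lp, (V p w ↔ V p w')) → w = w') (N : ℕ) :
    ∀ t < n + 1, rk t < N → ∀ d < n + 1, ∀ x < 2 ^ m, lev d x → rk t + d < n + 1 →
      ∀ r < 2 ^ (n + 1), ∀ S : Set (Form P),
        (∀ s < n + 1, (r.testBit s = true ↔ gg V q n m eq rk tv s ∈ S)) →
          ∀ w < m, x.testBit w = true →
            (sat V (gg V q n m eq rk tv t) (Xb m x) S w ↔ tv t x r w) := by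
  induction N with
  | zero => intro t _ h; omega
  | succ N ih =>
    intro t ht hN d hd x hx hlx hrd r hr S hS w hw hxw
    obtain ⟨h1, h2, h3⟩ := repr_spec C t ht
    have hrkt := rk_repr C t ht
    have htv : tv t x r w ↔ tv (repr n eq t) x r w :=
      (C.tv_eq _ h1 t ht h2 x hx r hr w hw hxw).symm
    rw [htv]
    by_cases h0 : repr n eq t % 9 = 0
    · -- free class
      obtain ⟨θ, hθ, hspec⟩ := gg_free (V := V) (q := q) C hsep t ht h0
      rw [hθ]
      change sat V θ (Xb m x) (S ∪ {tagF q (repr n eq t)}) w ↔ _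
      rw [hspec (Xb m x) _ w ⟨hw, hxw⟩ (fun v hv => hv.1)]
      have mem_iff : ∀ s < n + 1, (gg V q n m eq rk tv s ∈ S ∪ {tagF q (repr n eq t)} ↔
          r.testBit s = true) := by
        intro s hs
        rw [hS s hs]
        constructor
        · rintro (k | k)
          · exact k
          · exact absurd k (gg_ne_tag C hsep _ s hs (Nat.lt_succ_self _) _)
        · intro k; exact Or.inl k
      constructor
      · rintro ⟨x1, hx1, r1, hr1, k1, k2, k3⟩
        have e1 : x1 = x := eq_of_bits hx1 hx fun i hi => by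
          rw [k1 i hi]; exact ⟨fun h => h.2, fun h => ⟨hi, h⟩⟩
        subst e1
        refine (C.loc _ h1 _ hx1 r1 hr1 r hr ?_ w hw hxw).1 k3
        intro s hs hsr
        rw [k2 s hs, mem_iff s hs]
        rw [hrkt] at hsr
        exact ⟨fun h => h.2, fun h => ⟨hsr, h⟩⟩
      · intro k3
        obtain ⟨r1, hr1, k2⟩ := exists_bits (n + 1) (fun s => rk s < rk t ∧
          gg V q n m eq rk tv s ∈ S ∪ {tagF q (repr n eq t)})
        refine ⟨x, hx, r1, hr1, fun v hv => ⟨fun h => ⟨hv, h⟩, fun h => h.2⟩, k2, ?_⟩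
        refine (C.loc _ h1 x hx r1 hr1 r hr ?_ w hw hxw).2 k3
        intro s hs hsr
        rw [k2 s hs, mem_iff s hs]
        rw [hrkt] at hsr
        exact ⟨fun h => h.2, fun h => ⟨hsr, h⟩⟩
    · -- composite class
      rw [gg_repr_mk C t ht h0]
      obtain ⟨c, hc⟩ : ∃ c, repr n eq t = c := ⟨_, rfl⟩
      rw [hc] at h0 h1 h2 hrkt htv ⊢
      clear h3
      obtain ⟨q1, q2⟩ := C.rk_lt c h1 h0
      obtain ⟨s1, s2, s3, s4, s5, s6, s7, s8⟩ :=
        C.sem d hd x hx hlx r hr c h1 (by omega) w hw hxw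
      have hac : arg c < n + 1 := (arg_le _).trans_lt h1
      have hlc : lft c < n + 1 := (lft_le _).trans_lt h1
      have hrc : rgt c < n + 1 := (rgt_le _).trans_lt h1
      rcases cases9 c h0 with hc9 | hc9
      · have q1' := q1 (by omega)
        have IHa : ∀ v < m, x.testBit v = true →
            (sat V (gg V q n m eq rk tv (arg c)) (Xb m x) S v ↔ tv (arg c) x r v) :=
          fun v hv hxv => ih _ hac (by omega) d hd x hx hlx (by omega) r hr S hS v hv hxv
        rcases hc9 with k | k | k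
        · rw [s1 k]
          have e : mk (gg V q n m eq rk tv) c = .neg (gg V q n m eq rk tv (arg c)) := by
            simp [mk, k]
          rw [e]
          exact not_congr (IHa w hw hxw)
        · rw [s2 k]
          have e : mk (gg V q n m eq rk tv) c = .know (gg V q n m eq rk tv (arg c)) := by
            simp [mk, k]
          rw [e]
          constructor
          · intro h v hv hxv
            exact (IHa v hv hxv).1 (h v ⟨hv, hxv⟩)
          · intro h v hv
            exact (IHa v hv.1 hv.2).2 (h v hv.1 hv.2)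
        · rw [s3 k]
          have e : mk (gg V q n m eq rk tv) c = .ent (gg V q n m eq rk tv (arg c)) := by
            simp [mk, k]
          rw [e]
          change gg V q n m eq rk tv (arg c) ∈ S ↔ _
          constructor
          · intro h
            exact ⟨arg c, hac, (hS _ hac).2 h, C.refl _ hac⟩
          · rintro ⟨s, hs, hs1, hs2⟩
            rw [← gg_congr C s _ hs hac hs2]
            exact (hS s hs).1 hs1
      · have q2' := q2 (by omega)
        have IHl : ∀ v < m, x.testBit v = true →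
            (sat V (gg V q n m eq rk tv (lft c)) (Xb m x) S v ↔ tv (lft c) x r v) :=
          fun v hv hxv => ih _ hlc (by omega) d hd x hx hlx (by omega) r hr S hS v hv hxv
        have bitsU : ∀ r' < 2 ^ (n + 1),
            (∀ s < n + 1, (r'.testBit s = true ↔ r.testBit s = true ∨ eq s (lft c))) →
            ∀ s < n + 1, (r'.testBit s = true ↔
              gg V q n m eq rk tv s ∈ S ∪ {gg V q n m eq rk tv (lft c)}) := by
          intro r' hr' hrr' s hs
          rw [hrr' s hs, hS s hs]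
          constructor
          · rintro (h | h)
            · exact Or.inl h
            · exact Or.inr (gg_congr C s _ hs hlc h)
          · rintro (h | h)
            · exact Or.inl h
            · exact Or.inr (gg_inj C hsep _ s hs _ hlc (Nat.lt_succ_self _) h)
        rcases hc9 with k | k | k | k | k
        · rw [s4 k]
          have e : mk (gg V q n m eq rk tv) c =
              .and (gg V q n m eq rk tv (lft c)) (gg V q n m eq rk tv (rgt c)) := by
            simp [mk, k]
          rw [e]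
          exact and_congr (IHl w hw hxw)
            (ih _ hrc (by omega) d hd x hx hlx (by omega) r hr S hS w hw hxw)
        · have e : mk (gg V q n m eq rk tv) c =
              .ann (gg V q n m eq rk tv (lft c)) (gg V q n m eq rk tv (rgt c)) := by
            simp [mk, k]
          rw [e]
          obtain ⟨x', hx', hxx'⟩ := exists_bits m
            (fun v => x.testBit v = true ∧ tv (lft c) x r v)
          obtain ⟨k1, k2⟩ := s5 k x' hx' hxx'
          rw [k2]
          have hset : {v | v ∈ Xb m x ∧ sat V (gg V q n m eq rk tv (lft c)) (Xb m x) S v} =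
              Xb m x' := by
            ext v
            constructor
            · rintro ⟨⟨j1, j2⟩, j3⟩
              exact ⟨j1, (hxx' v j1).2 ⟨j2, (IHl v j1 j2).1 j3⟩⟩
            · rintro ⟨j1, j2⟩
              obtain ⟨j3, j4⟩ := (hxx' v j1).1 j2
              exact ⟨⟨j1, j3⟩, (IHl v j1 j3).2 j4⟩
          change (sat V (gg V q n m eq rk tv (lft c)) (Xb m x) S w →
            sat V (gg V q n m eq rk tv (rgt c))
              {v | v ∈ Xb m x ∧ sat V (gg V q n m eq rk tv (lft c)) (Xb m x) S v} S w) ↔ _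
          rw [hset, IHl w hw hxw]
          constructor
          · intro h h'
            exact (ih _ hrc (by omega) (d + 1) (by omega) x' hx' k1 (by omega) r hr S hS w hw
              ((hxx' w hw).2 ⟨hxw, h'⟩)).1 (h h')
          · intro h h'
            exact (ih _ hrc (by omega) (d + 1) (by omega) x' hx' k1 (by omega) r hr S hS w hw
              ((hxx' w hw).2 ⟨hxw, h'⟩)).2 (h h')
        · have e : mk (gg V q n m eq rk tv) c =
              .add (gg V q n m eq rk tv (lft c)) (gg V q n m eq rk tv (rgt c)) := by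
            simp [mk, k]
          rw [e]
          obtain ⟨r', hr', hrr'⟩ := exists_bits (n + 1)
            (fun s => r.testBit s = true ∨ eq s (lft c))
          rw [s6 k r' hr' hrr']
          exact ih _ hrc (by omega) d hd x hx hlx (by omega) r' hr' _
            (bitsU r' hr' hrr') w hw hxw
        · have e : mk (gg V q n m eq rk tv) c =
              .drop (gg V q n m eq rk tv (lft c)) (gg V q n m eq rk tv (rgt c)) := by
            simp [mk, k]
          rw [e]
          obtain ⟨r', hr', hrr'⟩ := exists_bits (n + 1)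
            (fun s => r.testBit s = true ∧ ¬ eq s (lft c))
          rw [s7 k r' hr' hrr']
          refine ih _ hrc (by omega) d hd x hx hlx (by omega) r' hr' _ ?_ w hw hxw
          intro s hs
          rw [hrr' s hs, hS s hs]
          constructor
          · rintro ⟨j1, j2⟩
            exact ⟨j1, fun j3 => j2 (gg_inj C hsep _ s hs _ hlc (Nat.lt_succ_self _) j3)⟩
          · rintro ⟨j1, j2⟩
            exact ⟨j1, fun j3 => j2 (gg_congr C s _ hs hlc j3)⟩
        · have e : mk (gg V q n m eq rk tv) c =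
              .real (gg V q n m eq rk tv (lft c)) (gg V q n m eq rk tv (rgt c)) := by
            simp [mk, k]
          rw [e]
          obtain ⟨r', hr', hrr'⟩ := exists_bits (n + 1)
            (fun s => r.testBit s = true ∨ eq s (lft c))
          rw [s8 k r' hr' hrr']
          refine imp_congr ?_ (ih _ hrc (by omega) d hd x hx hlx (by omega) r' hr' _
            (bitsU r' hr' hrr') w hw hxw)
          constructor
          · intro h v hv hxv
            exact (IHl v hv hxv).1 (h v ⟨hv, hxv⟩)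
          · intro h v hv
            exact (IHl v hv.1 hv.2).2 (h v hv.1 hv.2)

end

end backward

end Pool.Agent.Lib_helper77.Ent
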