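import Pool.Agent.Lib_helper77.EntSem

/-!
# Certificates

A certificate is a finite object which records which of the formulas with number at most `n` become equal
under a substitution, how their sizes compare, and their truth values in all relevant contexts.
-/

set_option autoImplicit false

namespace Pool.Agent.Lib_helper77.Ent

universe u v

/-- immediate constituent of a number of a formula with a unary main connective -/
def arg (t : ℕ) : ℕ := t / 9

/-- left constituent -/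
def lft (t : ℕ) : ℕ := (t / 9).unpair.1

/-- right constituent -/
def rgt (t : ℕ) : ℕ := (t / 9).unpair.2

theorem arg_lt {t : ℕ} (h : t % 9 ≠ 0) : arg t < t := by
  unfold arg
  exact Nat.div_lt_self (by omega) (by norm_num)

theorem arg_le (t : ℕ) : arg t ≤ t := Nat.div_le_self _ _

theorem lft_le (t : ℕ) : lft t ≤ t := (Nat.unpair_left_le _).trans (arg_le t)

theorem rgt_le (t : ℕ) : rgt t ≤ t := (Nat.unpair_right_le _).trans (arg_le t)

theorem lft_lt {t : ℕ} (h : t % 9 ≠ 0) : lft t < t :=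
  (Nat.unpair_left_le _).trans_lt (arg_lt h)

theorem rgt_lt {t : ℕ} (h : t % 9 ≠ 0) : rgt t < t :=
  (Nat.unpair_right_le _).trans_lt (arg_lt h)

/-- Put together a formula with main connective number `i` from the formulas of its constituents. -/
def mk {P : Type} (f : ℕ → Form P) (t : ℕ) : Form P :=
  if t % 9 = 1 then .neg (f (arg t))
  else if t % 9 = 2 then .know (f (arg t))
  else if t % 9 = 3 then .ent (f (arg t))
  else if t % 9 = 4 then .and (f (lft t)) (f (rgt t))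
  else if t % 9 = 5 then .ann (f (lft t)) (f (rgt t))
  else if t % 9 = 6 then .add (f (lft t)) (f (rgt t))
  else if t % 9 = 7 then .drop (f (lft t)) (f (rgt t))
  else .real (f (lft t)) (f (rgt t))

/-- The finite description of a substitution and a model. -/
structure Cert (n m : ℕ) (eq : ℕ → ℕ → Prop) (rk : ℕ → ℕ) (lev : ℕ → ℕ → Prop)
    (tv : ℕ → ℕ → ℕ → ℕ → Prop) : Prop where
  refl : ∀ s < n + 1, eq s s
  symm : ∀ s < n + 1, ∀ t < n + 1, eq s t → eq t s
  trans : ∀ s < n + 1, ∀ t < n + 1, ∀ u < n + 1, eq s t → eq t u → eq s u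
  inj : ∀ s < n + 1, ∀ t < n + 1, s % 9 ≠ 0 → t % 9 ≠ 0 → eq s t →
    s % 9 = t % 9 ∧ (s % 9 < 4 → eq (arg s) (arg t)) ∧
      (¬ s % 9 < 4 → eq (lft s) (lft t) ∧ eq (rgt s) (rgt t))
  cong : ∀ s < n + 1, ∀ t < n + 1, s % 9 ≠ 0 → s % 9 = t % 9 →
    (s % 9 < 4 → eq (arg s) (arg t)) →
      (¬ s % 9 < 4 → eq (lft s) (lft t) ∧ eq (rgt s) (rgt t)) → eq s t
  rk_eq : ∀ s < n + 1, ∀ t < n + 1, eq s t → rk s = rk t
  rk_le : ∀ s < n + 1, rk s < n + 1
  rk_lt : ∀ s < n + 1, s % 9 ≠ 0 → (s % 9 < 4 → rk (arg s) < rk s) ∧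
    (¬ s % 9 < 4 → rk (lft s) < rk s ∧ rk (rgt s) < rk s)
  loc : ∀ t < n + 1, ∀ x < 2 ^ m, ∀ r < 2 ^ (n + 1), ∀ r' < 2 ^ (n + 1),
    (∀ s < n + 1, rk s < rk t → (r.testBit s = true ↔ r'.testBit s = true)) →
      ∀ w < m, x.testBit w = true → (tv t x r w ↔ tv t x r' w)
  tv_eq : ∀ s < n + 1, ∀ t < n + 1, eq s t → ∀ x < 2 ^ m, ∀ r < 2 ^ (n + 1),
      ∀ w < m, x.testBit w = true → (tv s x r w ↔ tv t x r w)
  sem : ∀ d < n + 1, ∀ x < 2 ^ m, lev d x → ∀ r < 2 ^ (n + 1), ∀ t < n + 1, rk t + d < n + 1 →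
    ∀ w < m, x.testBit w = true →
      (t % 9 = 1 → (tv t x r w ↔ ¬ tv (arg t) x r w)) ∧
      (t % 9 = 2 → (tv t x r w ↔ ∀ v < m, x.testBit v = true → tv (arg t) x r v)) ∧
      (t % 9 = 3 → (tv t x r w ↔ ∃ s < n + 1, r.testBit s = true ∧ eq s (arg t))) ∧
      (t % 9 = 4 → (tv t x r w ↔ tv (lft t) x r w ∧ tv (rgt t) x r w)) ∧
      (t % 9 = 5 → ∀ x' < 2 ^ m,
        (∀ v < m, (x'.testBit v = true ↔ x.testBit v = true ∧ tv (lft t) x r v)) →
          lev (d + 1) x' ∧ (tv t x r w ↔ (tv (lft t) x r w → tv (rgt t) x' r w))) ∧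
      (t % 9 = 6 → ∀ r' < 2 ^ (n + 1),
        (∀ s < n + 1, (r'.testBit s = true ↔ r.testBit s = true ∨ eq s (lft t))) →
          (tv t x r w ↔ tv (rgt t) x r' w)) ∧
      (t % 9 = 7 → ∀ r' < 2 ^ (n + 1),
        (∀ s < n + 1, (r'.testBit s = true ↔ r.testBit s = true ∧ ¬ eq s (lft t))) →
          (tv t x r w ↔ tv (rgt t) x r' w)) ∧
      (t % 9 = 8 → ∀ r' < 2 ^ (n + 1),
        (∀ s < n + 1, (r'.testBit s = true ↔ r.testBit s = true ∨ eq s (lft t))) →
          (tv t x r w ↔ ((∀ v < m, x.testBit v = true → tv (lft t) x r v) → tv (rgt t) x r' w)))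

section forward

variable {P : Type} {W : Type v}

/-- The awareness set described by the bits of `r` -/
def SR (h : ℕ → Form P) (n : ℕ) (S0 : Set (Form P)) (r : ℕ) : Set (Form P) :=
  {s | (∃ t < n + 1, r.testBit t = true ∧ h t = s) ∨ ((∀ t < n + 1, h t ≠ s) ∧ s ∈ S0)}

/-- The sets of worlds reachable by announcements. -/
def RS (V : P → W → Prop) (h : ℕ → Form P) (n : ℕ) (S0 : Set (Form P)) (X0 : Set W) :
    List (Option (ℕ × ℕ)) → Set W
  | [] => X0
  | none :: l => RS V h n S0 X0 l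
  | some (t, r) :: l =>
    {v | v ∈ RS V h n S0 X0 l ∧ sat V (h t) (RS V h n S0 X0 l) (SR h n S0 r) v}

/-- an entry of a path is within the bounds -/
def Bdd (n : ℕ) (l : List (Option (ℕ × ℕ))) : Prop :=
  ∀ e ∈ l, ∀ p : ℕ × ℕ, e = some p → p.1 < n + 1 ∧ p.2 < 2 ^ (n + 1)

/-- worlds described by the bits of `x` -/
def XX (ι : W → ℕ) (X0 : Set W) (x : ℕ) : Set W := {v | v ∈ X0 ∧ x.testBit (ι v) = true}

/-- the rank of a formula number: the number of smaller formulas -/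
noncomputable def rank (h : ℕ → Form P) (n : ℕ) (s : ℕ) : ℕ :=
  ((Finset.range (n + 1)).filter (fun t => (h t).size < (h s).size)).card

theorem rank_lt_of_size (h : ℕ → Form P) (n s t : ℕ) (hs : s < n + 1)
    (hst : (h s).size < (h t).size) : rank h n s < rank h n t := by
  unfold rank
  refine Finset.card_lt_card ?_
  refine ⟨?_, ?_⟩
  · intro u hu
    simp only [Finset.mem_filter, Finset.mem_range] at hu ⊢
    exact ⟨hu.1, hu.2.trans hst⟩
  · intro hsub
    have : s ∈ (Finset.range (n + 1)).filter (fun u => (h u).size < (h s).size) :=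
      hsub (by simp only [Finset.mem_filter, Finset.mem_range]; exact ⟨hs, hst⟩)
    simp at this

theorem size_lt_of_rank (h : ℕ → Form P) (n s t : ℕ)
    (hst : rank h n s < rank h n t) : (h s).size < (h t).size := by
  by_contra hcon
  have hle : (h t).size ≤ (h s).size := not_lt.1 hcon
  have : rank h n t ≤ rank h n s := by
    unfold rank
    refine Finset.card_le_card ?_
    intro u hu
    simp only [Finset.mem_filter, Finset.mem_range] at hu ⊢
    exact ⟨hu.1, hu.2.trans_le hle⟩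
  omega

theorem rank_lt (h : ℕ → Form P) (n s : ℕ) (hs : s < n + 1) : rank h n s < n + 1 := by
  unfold rank
  have h1 : (Finset.range (n + 1)).filter (fun t => (h t).size < (h s).size) ⊂
      Finset.range (n + 1) := by
    refine ⟨Finset.filter_subset _ _, ?_⟩
    intro hsub
    have := hsub (Finset.mem_range.2 hs)
    simp at this
  have := Finset.card_lt_card h1
  simpa using this

theorem SR_union (h : ℕ → Form P) (n : ℕ) (S0 : Set (Form P)) (r r' a : ℕ) (ha : a < n + 1)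
    (hr : ∀ s < n + 1, (r'.testBit s = true ↔ r.testBit s = true ∨ h s = h a)) :
    SR h n S0 r' = SR h n S0 r ∪ {h a} := by
  ext s
  simp only [SR, Set.mem_union, Set.mem_singleton_iff]
  constructor
  · rintro (⟨t, ht, ht', rfl⟩ | ⟨h1, h2⟩)
    · rcases (hr t ht).1 ht' with h3 | h3
      · exact Or.inl (Or.inl ⟨t, ht, h3, rfl⟩)
      · exact Or.inr h3
    · exact Or.inl (Or.inr ⟨h1, h2⟩)
  · rintro ((⟨t, ht, ht', rfl⟩ | ⟨h1, h2⟩) | h3)
    · exact Or.inl ⟨t, ht, (hr t ht).2 (Or.inl ht'), rfl⟩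
    · exact Or.inr ⟨h1, h2⟩
    · exact Or.inl ⟨a, ha, (hr a ha).2 (Or.inr rfl), h3.symm⟩

theorem SR_sdiff (h : ℕ → Form P) (n : ℕ) (S0 : Set (Form P)) (r r' a : ℕ) (ha : a < n + 1)
    (hr : ∀ s < n + 1, (r'.testBit s = true ↔ r.testBit s = true ∧ ¬ h s = h a)) :
    SR h n S0 r' = SR h n S0 r \ {h a} := by
  ext s
  simp only [SR, Set.mem_sdiff, Set.mem_singleton_iff]
  constructor
  · rintro (⟨t, ht, ht', rfl⟩ | ⟨h1, h2⟩)
    · have h3 := (hr t ht).1 ht'
      exact ⟨Or.inl ⟨t, ht, h3.1, rfl⟩, h3.2⟩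
    · exact ⟨Or.inr ⟨h1, h2⟩, fun h3 => h1 a ha h3.symm⟩
  · rintro ⟨⟨t, ht, ht', rfl⟩ | ⟨h1, h2⟩, h3⟩
    · exact Or.inl ⟨t, ht, (hr t ht).2 ⟨ht', h3⟩, rfl⟩
    · exact Or.inr ⟨h1, h2⟩

end forward

end Pool.Agent.Lib_helper77.Ent
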