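import Mathlib

/-!
# The dynamic logic of entertainment

The language, its semantics, substitution, schematic validity and a Goedel numbering, exactly as in
problem MP_a83194_lc.
-/

set_option autoImplicit false

namespace Pool.Agent.Lib_helper77.Ent

universe u

/-- Formulas over a type `P` of proposition letters:
`p`, `¬φ`, `φ ∧ ψ`, `Kφ`, `Eφ`, `[!φ]ψ`, `[+φ]ψ`, `[-φ]ψ`, `[#φ]ψ`. -/
inductive Form (P : Type) : Type
  | atom : P → Form P
  | neg : Form P → Form P
  | and : Form P → Form P → Form P
  | know : Form P → Form P
  | ent : Form P → Form P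
  | ann : Form P → Form P → Form P
  | add : Form P → Form P → Form P
  | drop : Form P → Form P → Form P
  | real : Form P → Form P → Form P

/-- Uniform substitution of formulas for proposition letters, everywhere in a formula
(also inside the arguments of `E` and of the actions). -/
def Form.subst {P Q : Type} (σ : P → Form Q) : Form P → Form Q
  | .atom p => σ p
  | .neg φ => .neg (φ.subst σ)
  | .and φ ψ => .and (φ.subst σ) (ψ.subst σ)
  | .know φ => .know (φ.subst σ)
  | .ent φ => .ent (φ.subst σ)
  | .ann φ ψ => .ann (φ.subst σ) (ψ.subst σ)
  | .add φ ψ => .add (φ.subst σ) (ψ.subst σ)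
  | .drop φ ψ => .drop (φ.subst σ) (ψ.subst σ)
  | .real φ ψ => .real (φ.subst σ) (ψ.subst σ)

/-- A model: a single-agent epistemic model (worlds, an equivalence relation, a valuation)
with an awareness set of formulas at each world, constant on equivalence classes. -/
structure Model (P : Type) where
  /-- the worlds -/
  World : Type u
  /-- the epistemic accessibility relation -/
  rel : World → World → Prop
  equivalence : Equivalence rel
  /-- the valuation -/
  val : P → World → Prop
  /-- the awareness set of each world -/
  aware : World → Set (Form P)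
  aware_const : ∀ w v, rel w v → aware w = aware v

variable {P : Type}

/-- Keep only the worlds that satisfy `A`; everything else is restricted to them. -/
def Model.restrict (M : Model.{u} P) (A : M.World → Prop) : Model.{u} P where
  World := {w : M.World // A w}
  rel w v := M.rel w.1 v.1
  equivalence :=
    ⟨fun w => M.equivalence.refl w.1, fun h => M.equivalence.symm h,
      fun h h' => M.equivalence.trans h h'⟩
  val p w := M.val p w.1
  aware w := M.aware w.1
  aware_const w v h := M.aware_const w.1 v.1 h

/-- Add `ψ` to every awareness set. -/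
def Model.addAware (M : Model.{u} P) (ψ : Form P) : Model.{u} P where
  World := M.World
  rel := M.rel
  equivalence := M.equivalence
  val := M.val
  aware w := M.aware w ∪ {ψ}
  aware_const w v h := by rw [M.aware_const w v h]

/-- Remove `ψ` from every awareness set. -/
def Model.dropAware (M : Model.{u} P) (ψ : Form P) : Model.{u} P where
  World := M.World
  rel := M.rel
  equivalence := M.equivalence
  val := M.val
  aware w := M.aware w \ {ψ}
  aware_const w v h := by rw [M.aware_const w v h]

/-- Truth of a formula at a world of a model. -/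
def Sat : Form P → (M : Model.{u} P) → M.World → Prop
  | .atom p, M, w => M.val p w
  | .neg φ, M, w => ¬ Sat φ M w
  | .and φ ψ, M, w => Sat φ M w ∧ Sat ψ M w
  | .know φ, M, w => ∀ v, M.rel w v → Sat φ M v
  | .ent φ, M, w => φ ∈ M.aware w
  | .ann ψ χ, M, w => ∀ h : Sat ψ M w, Sat χ (M.restrict (Sat ψ M)) ⟨w, h⟩
  | .add ψ χ, M, w => Sat χ (M.addAware ψ) w
  | .drop ψ χ, M, w => Sat χ (M.dropAware ψ) w
  | .real ψ χ, M, w => (∀ v, M.rel w v → Sat ψ M v) → Sat χ (M.addAware ψ) w

/-- A formula is valid if it is true at every world of every model. -/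
def Valid (φ : Form P) : Prop :=
  ∀ (M : Model.{u} P) (w : M.World), Sat φ M w

/-- A formula is schematically valid if all its substitution instances are valid. -/
def SchematicallyValid (φ : Form P) : Prop :=
  ∀ σ : P → Form P, Valid.{u} (φ.subst σ)

/-- The proposition letters `p_i` with `i < k`. For `k = ⊤` there are countably infinitely many. -/
abbrev Letter (k : ℕ∞) : Type := {i : ℕ // (i : ℕ∞) < k}

/-- The Goedel number of a formula. -/
def code {k : ℕ∞} : Form (Letter k) → ℕ
  | .atom i => 9 * i.1
  | .neg φ => 9 * code φ + 1
  | .know φ => 9 * code φ + 2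
  | .ent φ => 9 * code φ + 3
  | .and φ ψ => 9 * Nat.pair (code φ) (code ψ) + 4
  | .ann φ ψ => 9 * Nat.pair (code φ) (code ψ) + 5
  | .add φ ψ => 9 * Nat.pair (code φ) (code ψ) + 6
  | .drop φ ψ => 9 * Nat.pair (code φ) (code ψ) + 7
  | .real φ ψ => 9 * Nat.pair (code φ) (code ψ) + 8

end Pool.Agent.Lib_helper77.Ent
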