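import Pool.Agent.Lib_helper77.EntMain

/-!
# Schematic validity and certificates
-/

set_option autoImplicit false

namespace Pool.Agent.Lib_helper77.Ent

universe u v

/-- enough labels for infinitely many letters -/
def NN (n : ℕ) : ℕ := 2 ^ (((n + 1) * 2 ^ (n + 1) + 1) ^ (n + 1))

theorem card_path (n : ℕ) :
    Fintype.card ((Fin (n + 1) → Option (Fin (n + 1) × Fin (2 ^ (n + 1)))) → Bool) = NN n := by
  simp [NN]

theorem label_top {P : Type} {W : Type v} (V : P → W → Prop) (h : ℕ → Form P) (n : ℕ)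
    (S0 : Set (Form P)) (X0 : Set W) :
    ∃ ι : W → ℕ, (∀ w, ι w < NN n) ∧
      ∀ l : List (Option (ℕ × ℕ)), l.length = n + 1 → Bdd n l →
        ∀ w v, ι w = ι v → (w ∈ RS V h n S0 X0 l ↔ v ∈ RS V h n S0 X0 l) := by
  classical
  let Path := Fin (n + 1) → Option (Fin (n + 1) × Fin (2 ^ (n + 1)))
  let conv : Option (Fin (n + 1) × Fin (2 ^ (n + 1))) → Option (ℕ × ℕ) :=
    Option.map (fun p => (p.1.1, p.2.1))
  let conv' : Option (ℕ × ℕ) → Option (Fin (n + 1) × Fin (2 ^ (n + 1))) := fun o =>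
    o.bind (fun p => if hp : p.1 < n + 1 ∧ p.2 < 2 ^ (n + 1) then
      some (⟨p.1, hp.1⟩, ⟨p.2, hp.2⟩) else none)
  have hconv : ∀ o : Option (ℕ × ℕ), (∀ p : ℕ × ℕ, o = some p → p.1 < n + 1 ∧ p.2 < 2 ^ (n + 1)) →
      conv (conv' o) = o := by
    intro o ho
    cases o with
    | none => rfl
    | some p =>
      have := ho p rfl
      simp only [conv, conv', Option.bind_some, dif_pos this, Option.map_some]
  let ty : W → (Path → Bool) := fun w π =>
    decide (w ∈ RS V h n S0 X0 (List.ofFn (fun i => conv (π i))))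
  let e : (Path → Bool) ≃ Fin (Fintype.card (Path → Bool)) := Fintype.equivFin (Path → Bool)
  refine ⟨fun w => (e (ty w)).1, ?_, ?_⟩
  · intro w
    rw [← card_path n]
    exact (e (ty w)).2
  · intro l hl hb w v hwv
    have h1 : ty w = ty v := e.injective (Fin.ext hwv)
    let π : Path := fun i => conv' (l[i.1]'(by rw [hl]; exact i.2))
    have h2 : List.ofFn (fun i => conv (π i)) = l := by
      refine List.ext_getElem (by simp [hl]) ?_
      intro i hi1 hi2
      rw [List.getElem_ofFn]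
      exact hconv _ (fun p hp => hb _ (List.getElem_mem hi2) p hp)
    have h3 := congrFun h1 π
    simp only [ty, h2] at h3
    simpa using h3

theorem label_fin {W : Type v} (k : ℕ) (V : Letter (k : ℕ∞) → W → Prop) :
    ∃ ι : W → ℕ, (∀ w, ι w < 2 ^ k) ∧ ∀ w v, ι w = ι v → ∀ p, (V p w ↔ V p v) := by
  classical
  refine ⟨fun w => Nat.ofBits (fun i : Fin k =>
    decide (V ⟨i.1, by exact_mod_cast i.2⟩ w)), fun w => Nat.ofBits_lt_two_pow _, ?_⟩
  intro w v hwv p
  have hp : p.1 < k := by exact_mod_cast p.2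
  have := congrArg (fun a => a.testBit p.1) hwv
  simp only [Nat.testBit_ofBits_lt _ _ hp] at this
  simpa using this

theorem RS_congr_val {P : Type} {W : Type v} (V : P → W → Prop) (h : ℕ → Form P) (n : ℕ)
    (S0 : Set (Form P)) (X0 : Set W) (w v : W) (hw : w ∈ X0) (hv : v ∈ X0)
    (hval : ∀ p, (V p w ↔ V p v)) (l : List (Option (ℕ × ℕ))) :
    w ∈ RS V h n S0 X0 l ↔ v ∈ RS V h n S0 X0 l := by
  induction l with
  | nil => exact ⟨fun _ => hv, fun _ => hw⟩
  | cons e l ih =>
    cases e with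
    | none => exact ih
    | some p => exact and_congr ih (sat_congr_val V w v hval _ _ _)

/-- the number of labels used for `k` letters -/
noncomputable def mm (k : ℕ∞) (n : ℕ) : ℕ := if k = ⊤ then NN n else 2 ^ k.toNat

theorem mm_top (n : ℕ) : mm ⊤ n = NN n := by simp [mm]

theorem mm_coe (k n : ℕ) : mm (k : ℕ∞) n = 2 ^ k := by simp [mm]

theorem sat_ulift {P : Type} (V : P → ℕ → Prop) (φ : Form P) :
    ∀ (X : Set ℕ) (S : Set (Form P)) (w : ULift.{u} ℕ),
      (sat (fun p (v : ULift.{u} ℕ) => V p v.down) φ {v | v.down ∈ X} S w ↔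
        sat V φ X S w.down) := by
  induction φ with
  | atom p => intro X S w; exact Iff.rfl
  | neg φ ih => intro X S w; exact not_congr (ih X S w)
  | and φ ψ ih1 ih2 => intro X S w; exact and_congr (ih1 X S w) (ih2 X S w)
  | know φ ih =>
    intro X S w
    constructor
    · intro h v hv; exact (ih X S ⟨v⟩).1 (h ⟨v⟩ hv)
    · intro h v hv; exact (ih X S v).2 (h v.down hv)
  | ent φ ih => intro X S w; exact Iff.rfl
  | ann φ ψ ih1 ih2 =>
    intro X S w
    refine imp_congr (ih1 X S w) ?_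
    rw [← ih2 {v | v ∈ X ∧ sat V φ X S v} S w]
    have : {v : ULift.{u} ℕ | v ∈ {v : ULift.{u} ℕ | v.down ∈ X} ∧
        sat (fun p (v : ULift.{u} ℕ) => V p v.down) φ {v | v.down ∈ X} S v} =
        {v | v.down ∈ {v | v ∈ X ∧ sat V φ X S v}} := by
      ext v
      exact and_congr Iff.rfl (ih1 X S v)
    rw [this]
  | add φ ψ ih1 ih2 => intro X S w; exact ih2 X _ w
  | drop φ ψ ih1 ih2 => intro X S w; exact ih2 X _ w
  | real φ ψ ih1 ih2 =>
    intro X S w
    refine imp_congr ?_ (ih2 X _ w)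
    constructor
    · intro h v hv; exact (ih1 X S ⟨v⟩).1 (h ⟨v⟩ hv)
    · intro h v hv; exact (ih1 X S v).2 (h v.down hv)

theorem dec_code {k : ℕ∞} (φ : Form (Letter k)) : ∀ {P : Type} (σ : ℕ → Form P),
    (dec (code φ)).subst σ = φ.subst (fun i => σ i.1) := by
  have ar : ∀ a b i : ℕ, i < 9 → b = 9 * a + i → b % 9 = i ∧ b / 9 = a := by
    intro a b i hi hb; omega
  induction φ with
  | atom i =>
    intro P σ
    obtain ⟨h1, h2⟩ := ar i.1 (9 * i.1) 0 (by norm_num) (by omega)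
    change (dec (9 * i.1)).subst σ = σ i.1
    rw [dec_atom _ h1, h2]
    rfl
  | neg φ ih =>
    intro P σ
    obtain ⟨h1, h2⟩ := ar (code φ) (9 * code φ + 1) 1 (by norm_num) rfl
    change (dec (9 * code φ + 1)).subst σ = _
    rw [subst_dec_mk σ _ (by omega)]
    simp only [mk, h1, if_true, arg, h2, ih]
    rfl
  | know φ ih =>
    intro P σ
    obtain ⟨h1, h2⟩ := ar (code φ) (9 * code φ + 2) 2 (by norm_num) rfl
    change (dec (9 * code φ + 2)).subst σ = _
    rw [subst_dec_mk σ _ (by omega)]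
    simp only [mk, h1, if_true, arg, h2, ih]
    rfl
  | ent φ ih =>
    intro P σ
    obtain ⟨h1, h2⟩ := ar (code φ) (9 * code φ + 3) 3 (by norm_num) rfl
    change (dec (9 * code φ + 3)).subst σ = _
    rw [subst_dec_mk σ _ (by omega)]
    simp only [mk, h1, if_true, arg, h2, ih]
    rfl
  | and φ ψ ih1 ih2 =>
    intro P σ
    obtain ⟨h1, h2⟩ := ar (Nat.pair (code φ) (code ψ)) (9 * Nat.pair (code φ) (code ψ) + 4) 4
      (by norm_num) rfl
    change (dec (9 * Nat.pair (code φ) (code ψ) + 4)).subst σ = _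
    rw [subst_dec_mk σ _ (by omega)]
    simp only [mk, h1, if_true, lft, rgt, h2, Nat.unpair_pair, ih1, ih2]
    rfl
  | ann φ ψ ih1 ih2 =>
    intro P σ
    obtain ⟨h1, h2⟩ := ar (Nat.pair (code φ) (code ψ)) (9 * Nat.pair (code φ) (code ψ) + 5) 5
      (by norm_num) rfl
    change (dec (9 * Nat.pair (code φ) (code ψ) + 5)).subst σ = _
    rw [subst_dec_mk σ _ (by omega)]
    simp only [mk, h1, if_true, lft, rgt, h2, Nat.unpair_pair, ih1, ih2]
    rfl
  | add φ ψ ih1 ih2 =>
    intro P σ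
    obtain ⟨h1, h2⟩ := ar (Nat.pair (code φ) (code ψ)) (9 * Nat.pair (code φ) (code ψ) + 6) 6
      (by norm_num) rfl
    change (dec (9 * Nat.pair (code φ) (code ψ) + 6)).subst σ = _
    rw [subst_dec_mk σ _ (by omega)]
    simp only [mk, h1, if_true, lft, rgt, h2, Nat.unpair_pair, ih1, ih2]
    rfl
  | drop φ ψ ih1 ih2 =>
    intro P σ
    obtain ⟨h1, h2⟩ := ar (Nat.pair (code φ) (code ψ)) (9 * Nat.pair (code φ) (code ψ) + 7) 7
      (by norm_num) rfl
    change (dec (9 * Nat.pair (code φ) (code ψ) + 7)).subst σ = _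
    rw [subst_dec_mk σ _ (by omega)]
    simp only [mk, h1, if_true, lft, rgt, h2, Nat.unpair_pair, ih1, ih2]
    rfl
  | real φ ψ ih1 ih2 =>
    intro P σ
    obtain ⟨h1, h2⟩ := ar (Nat.pair (code φ) (code ψ)) (9 * Nat.pair (code φ) (code ψ) + 8) 8
      (by norm_num) rfl
    change (dec (9 * Nat.pair (code φ) (code ψ) + 8)).subst σ = _
    rw [subst_dec_mk σ _ (by omega)]
    simp only [mk, h1, lft, rgt, h2, Nat.unpair_pair, ih1, ih2]
    rfl

/-- a letter occurring in a formula -/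
def Form.someLetter {P : Type} : Form P → P
  | .atom p => p
  | .neg φ => φ.someLetter
  | .and φ _ => φ.someLetter
  | .know φ => φ.someLetter
  | .ent φ => φ.someLetter
  | .ann φ _ => φ.someLetter
  | .add φ _ => φ.someLetter
  | .drop φ _ => φ.someLetter
  | .real φ _ => φ.someLetter

theorem not_schematicallyValid_iff {k : ℕ∞} (φ : Form (Letter k)) :
    ¬ SchematicallyValid.{u} φ ↔ CertEx (code φ) (mm k (code φ)) := by
  classical
  constructor
  · intro h
    unfold SchematicallyValid at h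
    push Not at h
    obtain ⟨σ, hσ⟩ := h
    rw [valid_iff] at hσ
    push Not at hσ
    obtain ⟨W, V, X0, S0, w0, hw0, hns⟩ := hσ
    let σ' : ℕ → Form (Letter k) := fun i =>
      if hi : (i : ℕ∞) < k then σ ⟨i, hi⟩ else φ
    have e : (dec (code φ)).subst σ' = φ.subst σ := by
      rw [dec_code φ σ']
      congr 1
      funext i
      exact dif_pos i.2
    rw [← e] at hns
    by_cases hk : k = ⊤
    · subst hk
      rw [mm_top]
      obtain ⟨ι, hι1, hι2⟩ := label_top V (fun t => (dec t).subst σ') (code φ) S0 X0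
      exact certEx_of_refutation V σ' (code φ) _ S0 X0 w0 hw0 hns ι (fun w _ => hι1 w)
        (fun l hl hb w _ v _ hwv => hι2 l hl hb w v hwv)
    · obtain ⟨k', rfl⟩ := ENat.ne_top_iff_exists.1 hk
      rw [mm_coe]
      obtain ⟨ι, hι1, hι2⟩ := label_fin k' V
      exact certEx_of_refutation V σ' (code φ) _ S0 X0 w0 hw0 hns ι (fun w _ => hι1 w)
        (fun l _ _ w hw v hv hwv => RS_congr_val V _ _ S0 X0 w v hw hv (hι2 w v hwv) l)
  · intro hC hval
    have hsep : ∃ N : ℕ, mm k (code φ) ≤ 2 ^ N ∧ ∀ i < N, (i : ℕ∞) < k := by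
      by_cases hk : k = ⊤
      · subst hk
        exact ⟨mm ⊤ (code φ), Nat.lt_two_pow_self.le, fun i _ => ENat.natCast_lt_top i⟩
      · obtain ⟨k', rfl⟩ := ENat.ne_top_iff_exists.1 hk
        exact ⟨k', by rw [mm_coe], fun i hi => by exact_mod_cast hi⟩
    obtain ⟨N, hN1, hN2⟩ := hsep
    let V : Letter k → ℕ → Prop := fun p w => w.testBit p.1 = true
    have hsep' : ∃ Lp : List (Letter k), ∀ w < mm k (code φ), ∀ w' < mm k (code φ),
        (∀ p ∈ Lp, (V p w ↔ V p w')) → w = w' := by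
      refine ⟨(List.finRange N).map fun i => ⟨i.1, hN2 i.1 i.2⟩, ?_⟩
      intro w hw w' hw' hag
      refine eq_of_bits (hw.trans_le hN1) (hw'.trans_le hN1) fun i hi => ?_
      exact hag ⟨i, hN2 i hi⟩ (List.mem_map.2 ⟨⟨i, hi⟩, List.mem_finRange _, rfl⟩)
    obtain ⟨σ, X, S, w, hw, hns⟩ := refutation_of_certEx V φ.someLetter (code φ)
      (mm k (code φ)) hsep' hC
    have h1 := hval (fun i => σ i.1)
    rw [valid_iff] at h1
    have h2 := h1 (ULift.{u} ℕ) (fun p v => V p v.down) {v | v.down ∈ X} S ⟨w⟩ hw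
    rw [sat_ulift, ← dec_code φ σ] at h2
    exact hns h2

/-- `n` is the number of a formula over the letters below `k` -/
theorem isCode_iff {k : ℕ∞} (n : ℕ) : (∃ φ : Form (Letter k), code φ = n) ↔
    ∃ a < 2 ^ (n + 1), a.testBit n = true ∧ ∀ t < n + 1, a.testBit t = true →
      (t % 9 = 0 → ((t / 9 : ℕ) : ℕ∞) < k) ∧ (¬ t % 9 = 0 → t % 9 < 4 → a.testBit (arg t) = true) ∧
        (¬ t % 9 < 4 → a.testBit (lft t) = true ∧ a.testBit (rgt t) = true) := by
  constructor
  · rintro ⟨φ, rfl⟩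
    obtain ⟨a, ha, ha'⟩ := exists_bits (code φ + 1) (fun t => ∃ ψ : Form (Letter k), code ψ = t)
    refine ⟨a, ha, (ha' _ (Nat.lt_succ_self _)).2 ⟨φ, rfl⟩, ?_⟩
    intro t ht hat
    rw [ha' _ ((arg_le t).trans_lt ht), ha' _ ((lft_le t).trans_lt ht),
      ha' _ ((rgt_le t).trans_lt ht)]
    obtain ⟨ψ, rfl⟩ := (ha' t ht).1 hat
    have ar : ∀ a b i : ℕ, i < 9 → b = 9 * a + i → b % 9 = i ∧ b / 9 = a := by
      intro a b i hi hb; omega
    cases ψ with
    | atom i =>
      obtain ⟨h1, h2⟩ := ar i.1 (code (.atom i)) 0 (by norm_num) rfl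
      rw [h1, h2]
      exact ⟨fun _ => i.2, fun h => absurd rfl h, fun h => absurd (by norm_num) h⟩
    | neg φ =>
      obtain ⟨h1, h2⟩ := ar (code φ) (code (.neg φ)) 1 (by norm_num) rfl
      rw [h1]; unfold arg; rw [h2]
      exact ⟨fun h => by omega, fun _ _ => ⟨φ, rfl⟩, fun h => by omega⟩
    | know φ =>
      obtain ⟨h1, h2⟩ := ar (code φ) (code (.know φ)) 2 (by norm_num) rfl
      rw [h1]; unfold arg; rw [h2]
      exact ⟨fun h => by omega, fun _ _ => ⟨φ, rfl⟩, fun h => by omega⟩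
    | ent φ =>
      obtain ⟨h1, h2⟩ := ar (code φ) (code (.ent φ)) 3 (by norm_num) rfl
      rw [h1]; unfold arg; rw [h2]
      exact ⟨fun h => by omega, fun _ _ => ⟨φ, rfl⟩, fun h => by omega⟩
    | and φ ψ =>
      obtain ⟨h1, h2⟩ := ar (Nat.pair (code φ) (code ψ)) (code (.and φ ψ)) 4 (by norm_num) rfl
      rw [h1]; unfold lft rgt; rw [h2, Nat.unpair_pair]
      exact ⟨fun h => by omega, fun _ h => by omega, fun _ => ⟨⟨φ, rfl⟩, ⟨ψ, rfl⟩⟩⟩
    | ann φ ψ =>
      obtain ⟨h1, h2⟩ := ar (Nat.pair (code φ) (code ψ)) (code (.ann φ ψ)) 5 (by norm_num) rfl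
      rw [h1]; unfold lft rgt; rw [h2, Nat.unpair_pair]
      exact ⟨fun h => by omega, fun _ h => by omega, fun _ => ⟨⟨φ, rfl⟩, ⟨ψ, rfl⟩⟩⟩
    | add φ ψ =>
      obtain ⟨h1, h2⟩ := ar (Nat.pair (code φ) (code ψ)) (code (.add φ ψ)) 6 (by norm_num) rfl
      rw [h1]; unfold lft rgt; rw [h2, Nat.unpair_pair]
      exact ⟨fun h => by omega, fun _ h => by omega, fun _ => ⟨⟨φ, rfl⟩, ⟨ψ, rfl⟩⟩⟩
    | drop φ ψ =>
      obtain ⟨h1, h2⟩ := ar (Nat.pair (code φ) (code ψ)) (code (.drop φ ψ)) 7 (by norm_num) rfl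
      rw [h1]; unfold lft rgt; rw [h2, Nat.unpair_pair]
      exact ⟨fun h => by omega, fun _ h => by omega, fun _ => ⟨⟨φ, rfl⟩, ⟨ψ, rfl⟩⟩⟩
    | real φ ψ =>
      obtain ⟨h1, h2⟩ := ar (Nat.pair (code φ) (code ψ)) (code (.real φ ψ)) 8 (by norm_num) rfl
      rw [h1]; unfold lft rgt; rw [h2, Nat.unpair_pair]
      exact ⟨fun h => by omega, fun _ h => by omega, fun _ => ⟨⟨φ, rfl⟩, ⟨ψ, rfl⟩⟩⟩
  · rintro ⟨a, _, han, hcl⟩
    have key : ∀ t, t < n + 1 → a.testBit t = true → ∃ φ : Form (Letter k), code φ = t := by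
      intro t
      induction t using Nat.strong_induction_on with
      | _ t ih =>
        intro ht hat
        obtain ⟨c1, c2, c3⟩ := hcl t ht hat
        by_cases h0 : t % 9 = 0
        · refine ⟨.atom ⟨t / 9, c1 h0⟩, ?_⟩
          change 9 * (t / 9) = t
          omega
        · rcases cases9 t h0 with h | h
          · obtain ⟨φ, hφ⟩ := ih (arg t) (arg_lt h0) ((arg_le t).trans_lt ht) (c2 h0 (by omega))
            unfold arg at hφ
            rcases h with h | h | h
            · refine ⟨.neg φ, ?_⟩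
              change 9 * code φ + 1 = t
              rw [hφ]; omega
            · refine ⟨.know φ, ?_⟩
              change 9 * code φ + 2 = t
              rw [hφ]; omega
            · refine ⟨.ent φ, ?_⟩
              change 9 * code φ + 3 = t
              rw [hφ]; omega
          · obtain ⟨d1, d2⟩ := c3 (by omega)
            obtain ⟨φ, hφ⟩ := ih (lft t) (lft_lt h0) ((lft_le t).trans_lt ht) d1
            obtain ⟨ψ, hψ⟩ := ih (rgt t) (rgt_lt h0) ((rgt_le t).trans_lt ht) d2
            unfold lft at hφ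
            unfold rgt at hψ
            have hp : Nat.pair (code φ) (code ψ) = t / 9 := by
              rw [hφ, hψ, Nat.pair_unpair]
            rcases h with h | h | h | h | h
            · refine ⟨.and φ ψ, ?_⟩
              change 9 * Nat.pair (code φ) (code ψ) + 4 = t
              rw [hp]; omega
            · refine ⟨.ann φ ψ, ?_⟩
              change 9 * Nat.pair (code φ) (code ψ) + 5 = t
              rw [hp]; omega
            · refine ⟨.add φ ψ, ?_⟩
              change 9 * Nat.pair (code φ) (code ψ) + 6 = t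
              rw [hp]; omega
            · refine ⟨.drop φ ψ, ?_⟩
              change 9 * Nat.pair (code φ) (code ψ) + 7 = t
              rw [hp]; omega
            · refine ⟨.real φ ψ, ?_⟩
              change 9 * Nat.pair (code φ) (code ψ) + 8 = t
              rw [hp]; omega
    exact key n (Nat.lt_succ_self n) han

theorem schematic_set_iff {k : ℕ∞} (n : ℕ) :
    (∃ φ : Form (Letter k), code φ = n ∧ SchematicallyValid.{u} φ) ↔
      (∃ φ : Form (Letter k), code φ = n) ∧ ¬ CertEx n (mm k n) := by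
  constructor
  · rintro ⟨φ, rfl, h⟩
    refine ⟨⟨φ, rfl⟩, ?_⟩
    rw [← not_schematicallyValid_iff.{u} φ]
    exact fun h' => h' h
  · rintro ⟨⟨φ, rfl⟩, h⟩
    refine ⟨φ, rfl, ?_⟩
    by_contra h'
    exact h ((not_schematicallyValid_iff.{u} φ).1 h')

end Pool.Agent.Lib_helper77.Ent
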