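import Pool.Agent.Lib_helper77.EntCert

/-!
# From a model and a substitution to a certificate
-/

set_option autoImplicit false

namespace Pool.Agent.Lib_helper77.Ent

universe u v

section forward

variable {P : Type} {W : Type v}

/-- the context with world bits `x` is reachable in `d` steps -/
def LEV (V : P → W → Prop) (h : ℕ → Form P) (n m : ℕ) (S0 : Set (Form P)) (X0 : Set W)
    (ι : W → ℕ) (d x : ℕ) : Prop :=
  (∃ l : List (Option (ℕ × ℕ)), l.length = d ∧ Bdd n l ∧ RS V h n S0 X0 l = XX ι X0 x) ∧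
    ∀ j < m, x.testBit j = true → ∃ v ∈ X0, ι v = j

/-- truth value in the original model -/
def TV (V : P → W → Prop) (h : ℕ → Form P) (n : ℕ) (S0 : Set (Form P)) (X0 : Set W)
    (ι : W → ℕ) (rep : ℕ → W) (t x r j : ℕ) : Prop :=
  sat V (h t) (XX ι X0 x) (SR h n S0 r) (rep j)

theorem RS_pad (V : P → W → Prop) (h : ℕ → Form P) (n : ℕ) (S0 : Set (Form P)) (X0 : Set W)
    (l : List (Option (ℕ × ℕ))) (k : ℕ) :
    RS V h n S0 X0 (List.replicate k none ++ l) = RS V h n S0 X0 l := by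
  induction k with
  | zero => rfl
  | succ k ih => exact ih

theorem Bdd_pad (n : ℕ) (l : List (Option (ℕ × ℕ))) (k : ℕ) (hl : Bdd n l) :
    Bdd n (List.replicate k none ++ l) := by
  intro e he p hp
  rcases List.mem_append.1 he with h1 | h1
  · rw [List.eq_of_mem_replicate h1] at hp
    exact absurd hp (by simp)
  · exact hl e h1 p hp

theorem cert_forward (V : P → W → Prop) (h : ℕ → Form P) (hh : ∀ t, t % 9 ≠ 0 → h t = mk h t)
    (n m : ℕ) (S0 : Set (Form P)) (X0 : Set W) (ι : W → ℕ)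
    (hinv : ∀ l : List (Option (ℕ × ℕ)), l.length = n + 1 → Bdd n l →
      ∀ w ∈ X0, ∀ v ∈ X0, ι w = ι v → (w ∈ RS V h n S0 X0 l ↔ v ∈ RS V h n S0 X0 l))
    (hιm : ∀ w ∈ X0, ι w < m)
    (rep : ℕ → W) (hrep : ∀ v ∈ X0, rep (ι v) ∈ X0 ∧ ι (rep (ι v)) = ι v)
    (eq : ℕ → ℕ → Prop) (rk : ℕ → ℕ) (lev : ℕ → ℕ → Prop) (tv : ℕ → ℕ → ℕ → ℕ → Prop)
    (heq : ∀ s < n + 1, ∀ t < n + 1, (eq s t ↔ h s = h t))
    (hrk : ∀ s < n + 1, rk s = rank h n s)
    (hlev : ∀ d < n + 2, ∀ x < 2 ^ m, (lev d x ↔ LEV V h n m S0 X0 ι d x))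
    (htv : ∀ t < n + 1, ∀ x < 2 ^ m, ∀ r < 2 ^ (n + 1), ∀ w < m,
      (tv t x r w ↔ TV V h n S0 X0 ι rep t x r w)) :
    Cert n m eq rk lev tv := by
  have hinv' : ∀ l : List (Option (ℕ × ℕ)), l.length ≤ n + 1 → Bdd n l →
      ∀ w ∈ X0, ∀ v ∈ X0, ι w = ι v → (w ∈ RS V h n S0 X0 l ↔ v ∈ RS V h n S0 X0 l) := by
    intro l hl hb w hw v hv hwv
    have := hinv (List.replicate (n + 1 - l.length) none ++ l)
      (by simp only [List.length_append, List.length_replicate]; omega) (Bdd_pad n l _ hb)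
      w hw v hv hwv
    rwa [RS_pad] at this
  have hargs : ∀ t, t < n + 1 → arg t < n + 1 := fun t ht => (arg_le t).trans_lt ht
  have hlfts : ∀ t, t < n + 1 → lft t < n + 1 := fun t ht => (lft_le t).trans_lt ht
  have hrgts : ∀ t, t < n + 1 → rgt t < n + 1 := fun t ht => (rgt_le t).trans_lt ht
  -- unfolding
  have e1 : ∀ t, t % 9 = 1 → h t = .neg (h (arg t)) := fun t ht => by
    rw [hh t (by omega)]; simp [mk, ht]
  have e2 : ∀ t, t % 9 = 2 → h t = .know (h (arg t)) := fun t ht => by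
    rw [hh t (by omega)]; simp [mk, ht]
  have e3 : ∀ t, t % 9 = 3 → h t = .ent (h (arg t)) := fun t ht => by
    rw [hh t (by omega)]; simp [mk, ht]
  have e4 : ∀ t, t % 9 = 4 → h t = .and (h (lft t)) (h (rgt t)) := fun t ht => by
    rw [hh t (by omega)]; simp [mk, ht]
  have e5 : ∀ t, t % 9 = 5 → h t = .ann (h (lft t)) (h (rgt t)) := fun t ht => by
    rw [hh t (by omega)]; simp [mk, ht]
  have e6 : ∀ t, t % 9 = 6 → h t = .add (h (lft t)) (h (rgt t)) := fun t ht => by
    rw [hh t (by omega)]; simp [mk, ht]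
  have e7 : ∀ t, t % 9 = 7 → h t = .drop (h (lft t)) (h (rgt t)) := fun t ht => by
    rw [hh t (by omega)]; simp [mk, ht]
  have e8 : ∀ t, t % 9 = 8 → h t = .real (h (lft t)) (h (rgt t)) := fun t ht => by
    rw [hh t (by omega)]; simp [mk, ht]
  have cases9 : ∀ t, t % 9 ≠ 0 → (t % 9 = 1 ∨ t % 9 = 2 ∨ t % 9 = 3) ∨
      (t % 9 = 4 ∨ t % 9 = 5 ∨ t % 9 = 6 ∨ t % 9 = 7 ∨ t % 9 = 8) := by intro t ht; omega
  refine
    { refl := ?_, symm := ?_, trans := ?_, inj := ?_, cong := ?_, rk_eq := ?_, rk_le := ?_,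
      rk_lt := ?_, loc := ?_, tv_eq := ?_, sem := ?_ }
  · intro s hs; exact (heq s hs s hs).2 rfl
  · intro s hs t ht hst; exact (heq t ht s hs).2 ((heq s hs t ht).1 hst).symm
  · intro s hs t ht u hu h1 h2
    exact (heq s hs u hu).2 (((heq s hs t ht).1 h1).trans ((heq t ht u hu).1 h2))
  · -- inj
    intro s hs t ht hs0 ht0 hst
    have hst' := (heq s hs t ht).1 hst
    rw [heq _ (hargs s hs) _ (hargs t ht), heq _ (hlfts s hs) _ (hlfts t ht),
      heq _ (hrgts s hs) _ (hrgts t ht)]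
    rcases cases9 s hs0 with (h1 | h1 | h1) | (h1 | h1 | h1 | h1 | h1) <;>
    rcases cases9 t ht0 with (h2 | h2 | h2) | (h2 | h2 | h2 | h2 | h2) <;>
    simp only [e1, e2, e3, e4, e5, e6, e7, e8, h1, h2] at hst' <;>
    first
      | (injection hst'; done)
      | (injection hst' with hst1
         exact ⟨by omega, fun _ => hst1, fun hc => absurd hc (by omega)⟩)
      | (injection hst' with hst1 hst2
         exact ⟨by omega, fun hc => absurd hc (by omega), fun _ => ⟨hst1, hst2⟩⟩)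
  · -- cong
    intro s hs t ht hs0 hst hu hb
    rw [heq _ (hargs s hs) _ (hargs t ht)] at hu
    rw [heq _ (hlfts s hs) _ (hlfts t ht), heq _ (hrgts s hs) _ (hrgts t ht)] at hb
    refine (heq s hs t ht).2 ?_
    rcases cases9 s hs0 with h1 | h1
    · have h3 := hu (by omega)
      rcases h1 with h1 | h1 | h1
      · rw [e1 s h1, e1 t (by omega), h3]
      · rw [e2 s h1, e2 t (by omega), h3]
      · rw [e3 s h1, e3 t (by omega), h3]
    · obtain ⟨h3, h4⟩ := hb (by omega)
      rcases h1 with h1 | h1 | h1 | h1 | h1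
      · rw [e4 s h1, e4 t (by omega), h3, h4]
      · rw [e5 s h1, e5 t (by omega), h3, h4]
      · rw [e6 s h1, e6 t (by omega), h3, h4]
      · rw [e7 s h1, e7 t (by omega), h3, h4]
      · rw [e8 s h1, e8 t (by omega), h3, h4]
  · -- rk_eq
    intro s hs t ht hst
    rw [hrk s hs, hrk t ht]
    unfold rank
    rw [(heq s hs t ht).1 hst]
  · intro s hs; rw [hrk s hs]; exact rank_lt h n s hs
  · -- rk_lt
    intro s hs hs0
    rw [hrk s hs, hrk _ (hargs s hs), hrk _ (hlfts s hs), hrk _ (hrgts s hs)]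
    constructor
    · intro h4
      refine rank_lt_of_size h n _ _ (hargs s hs) ?_
      rcases cases9 s hs0 with (h1 | h1 | h1) | h1
      · rw [e1 s h1]; simp only [Form.size]; omega
      · rw [e2 s h1]; simp only [Form.size]; omega
      · rw [e3 s h1]; simp only [Form.size]; omega
      · omega
    · intro h4
      rcases cases9 s hs0 with h1 | (h1 | h1 | h1 | h1 | h1)
      · omega
      · constructor <;> refine rank_lt_of_size h n _ _ (by first | exact hlfts s hs | exact hrgts s hs) ?_ <;>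
          rw [e4 s h1] <;> simp only [Form.size] <;> omega
      · constructor <;> refine rank_lt_of_size h n _ _ (by first | exact hlfts s hs | exact hrgts s hs) ?_ <;>
          rw [e5 s h1] <;> simp only [Form.size] <;> omega
      · constructor <;> refine rank_lt_of_size h n _ _ (by first | exact hlfts s hs | exact hrgts s hs) ?_ <;>
          rw [e6 s h1] <;> simp only [Form.size] <;> omega
      · constructor <;> refine rank_lt_of_size h n _ _ (by first | exact hlfts s hs | exact hrgts s hs) ?_ <;>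
          rw [e7 s h1] <;> simp only [Form.size] <;> omega
      · constructor <;> refine rank_lt_of_size h n _ _ (by first | exact hlfts s hs | exact hrgts s hs) ?_ <;>
          rw [e8 s h1] <;> simp only [Form.size] <;> omega
  · -- loc
    intro t ht x hx r hr r' hr' hloc w hw hxw
    rw [htv t ht x hx r hr w hw, htv t ht x hx r' hr' w hw]
    refine sat_congr_size V (h t) _ _ _ _ ?_
    intro s hs
    have key : ∀ u < n + 1, h u = s → (r.testBit u = true ↔ r'.testBit u = true) := by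
      intro u hu hus
      refine hloc u hu ?_
      rw [hrk u hu, hrk t ht]
      exact rank_lt_of_size h n u t hu (by rw [hus]; exact hs)
    simp only [SR]
    constructor
    · rintro (⟨u, hu, hu', hus⟩ | h2)
      · exact Or.inl ⟨u, hu, (key u hu hus).1 hu', hus⟩
      · exact Or.inr h2
    · rintro (⟨u, hu, hu', hus⟩ | h2)
      · exact Or.inl ⟨u, hu, (key u hu hus).2 hu', hus⟩
      · exact Or.inr h2
  · -- tv_eq
    intro s hs t ht hst x hx r hr w hw hxw
    rw [htv s hs x hx r hr w hw, htv t ht x hx r hr w hw]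
    unfold TV
    rw [(heq s hs t ht).1 hst]
  · -- sem
    intro d hd x hx hlx r hr t ht hrd w hw hxw
    obtain ⟨⟨l, hl1, hl2, hl3⟩, hx2⟩ := (hlev d (by omega) x hx).1 hlx
    -- representatives
    have hrepx : ∀ j < m, x.testBit j = true → rep j ∈ XX ι X0 x ∧ ι (rep j) = j := by
      intro j hj hxj
      obtain ⟨v, hv, rfl⟩ := hx2 j hj hxj
      obtain ⟨h1, h2⟩ := hrep v hv
      exact ⟨⟨h1, by rw [h2]; exact hxj⟩, h2⟩
    have hstep : ∀ a r1 : ℕ, RS V h n S0 X0 (some (a, r1) :: l) =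
        {v | v ∈ XX ι X0 x ∧ sat V (h a) (XX ι X0 x) (SR h n S0 r1) v} := by
      intro a r1
      rw [← hl3]
      rfl
    have hb : ∀ a r1 : ℕ, a < n + 1 → r1 < 2 ^ (n + 1) → Bdd n (some (a, r1) :: l) := by
      intro a r1 ha hr1 e he p hp
      rcases List.mem_cons.1 he with h1 | h1
      · rw [h1] at hp
        injection hp with hp
        rw [← hp]
        exact ⟨ha, hr1⟩
      · exact hl2 e h1 p hp
    have hinv2 : ∀ a < n + 1, ∀ r1 < 2 ^ (n + 1), ∀ u ∈ XX ι X0 x, ∀ v ∈ XX ι X0 x, ι u = ι v →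
        (sat V (h a) (XX ι X0 x) (SR h n S0 r1) u ↔ sat V (h a) (XX ι X0 x) (SR h n S0 r1) v) := by
      intro a ha r1 hr1 u hu v hv huv
      have h1 := hinv' (some (a, r1) :: l) (by simp only [List.length_cons]; omega)
        (hb a r1 ha hr1) u hu.1 v hv.1 huv
      rw [hstep a r1] at h1
      constructor
      · intro h2; exact (h1.1 ⟨hu, h2⟩).2
      · intro h2; exact (h1.2 ⟨hv, h2⟩).2
    have hall : ∀ a < n + 1, ∀ r1 < 2 ^ (n + 1),
        ((∀ v ∈ XX ι X0 x, sat V (h a) (XX ι X0 x) (SR h n S0 r1) v) ↔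
          ∀ v < m, x.testBit v = true → tv a x r1 v) := by
      intro a ha r1 hr1
      constructor
      · intro h1 v hv hxv
        rw [htv a ha x hx r1 hr1 v hv]
        exact h1 _ (hrepx v hv hxv).1
      · intro h1 v hv
        have h2 := h1 (ι v) (hιm v hv.1) hv.2
        rw [htv a ha x hx r1 hr1 _ (hιm v hv.1)] at h2
        have h3 := hrepx (ι v) (hιm v hv.1) hv.2
        exact (hinv2 a ha r1 hr1 v hv (rep (ι v)) h3.1 h3.2.symm).2 h2
    have ha := hargs t ht
    have hlf := hlfts t ht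
    have hrg := hrgts t ht
    have T := htv t ht x hx r hr w hw
    have Ta := htv _ ha x hx r hr w hw
    have Tl := htv _ hlf x hx r hr w hw
    have Tr := htv _ hrg x hx r hr w hw
    refine ⟨?_, ?_, ?_, ?_, ?_, ?_, ?_, ?_⟩
    · intro h9
      rw [T, Ta]; unfold TV; rw [e1 t h9]; exact Iff.rfl
    · intro h9
      rw [T, ← hall _ ha r hr]; unfold TV; rw [e2 t h9]; exact Iff.rfl
    · intro h9
      rw [T]; unfold TV; rw [e3 t h9]
      change (h (arg t) ∈ SR h n S0 r) ↔ _
      constructor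
      · rintro (⟨s, hs, hs', hss⟩ | ⟨h1, _⟩)
        · exact ⟨s, hs, hs', (heq s hs _ ha).2 hss⟩
        · exact absurd rfl (h1 _ ha)
      · rintro ⟨s, hs, hs', hss⟩
        exact Or.inl ⟨s, hs, hs', (heq s hs _ ha).1 hss⟩
    · intro h9
      rw [T, Tl, Tr]; unfold TV; rw [e4 t h9]; exact Iff.rfl
    · intro h9 x' hx' hxx'
      have hXX : XX ι X0 x' = {v | v ∈ XX ι X0 x ∧ sat V (h (lft t)) (XX ι X0 x) (SR h n S0 r) v} := by
        ext v
        constructor
        · rintro ⟨h1, h2⟩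
          obtain ⟨h3, h4⟩ := (hxx' (ι v) (hιm v h1)).1 h2
          rw [htv _ hlf x hx r hr _ (hιm v h1)] at h4
          have h5 := hrepx (ι v) (hιm v h1) h3
          exact ⟨⟨h1, h3⟩, (hinv2 _ hlf r hr v ⟨h1, h3⟩ (rep (ι v)) h5.1 h5.2.symm).2 h4⟩
        · rintro ⟨⟨h1, h3⟩, h4⟩
          refine ⟨h1, (hxx' (ι v) (hιm v h1)).2 ⟨h3, ?_⟩⟩
          rw [htv _ hlf x hx r hr _ (hιm v h1)]
          have h5 := hrepx (ι v) (hιm v h1) h3
          exact (hinv2 _ hlf r hr v ⟨h1, h3⟩ (rep (ι v)) h5.1 h5.2.symm).1 h4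
      constructor
      · rw [hlev (d + 1) (by omega) x' hx']
        refine ⟨⟨some (lft t, r) :: l, by simp only [List.length_cons]; omega, hb _ _ hlf hr, ?_⟩, ?_⟩
        · rw [hXX, hstep]
        · intro j hj hj'
          exact hx2 j hj ((hxx' j hj).1 hj').1
      · rw [T, Tl, htv _ hrg x' hx' r hr w hw]
        unfold TV
        rw [e5 t h9, hXX]
        exact Iff.rfl
    · intro h9 r' hr' hrr'
      have hS := SR_union h n S0 r r' (lft t) hlf
        (fun s hs => by rw [hrr' s hs, heq s hs _ hlf])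
      rw [T, htv _ hrg x hx r' hr' w hw]
      unfold TV
      rw [e6 t h9, hS]
      exact Iff.rfl
    · intro h9 r' hr' hrr'
      have hS := SR_sdiff h n S0 r r' (lft t) hlf
        (fun s hs => by rw [hrr' s hs, heq s hs _ hlf])
      rw [T, htv _ hrg x hx r' hr' w hw]
      unfold TV
      rw [e7 t h9, hS]
      exact Iff.rfl
    · intro h9 r' hr' hrr'
      have hS := SR_union h n S0 r r' (lft t) hlf
        (fun s hs => by rw [hrr' s hs, heq s hs _ hlf])
      rw [T, htv _ hrg x hx r' hr' w hw, ← hall _ hlf r hr]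
      unfold TV
      rw [e8 t h9, hS]
      exact Iff.rfl

end forward

end Pool.Agent.Lib_helper77.Ent
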