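import Pool.Agent.Lib_helper77.EntFwd
import Pool.Agent.Lib_helper77.EntBwd2

/-!
# Refutability in the schematic sense is the existence of a bounded certificate
-/

set_option autoImplicit false

namespace Pool.Agent.Lib_helper77.Ent

universe u v

/-- The formula with Goedel number `n`, over the letters `ℕ`. -/
def dec (n : ℕ) : Form ℕ :=
  if n % 9 = 0 then .atom (n / 9)
  else mk (fun s => if _h : s < n then dec s else .atom 0) n
termination_by n

theorem dec_atom (n : ℕ) (h : n % 9 = 0) : dec n = .atom (n / 9) := by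
  rw [dec, if_pos h]

theorem dec_mk (n : ℕ) (h : n % 9 ≠ 0) : dec n = mk dec n := by
  rw [dec, if_neg h]
  refine mk_congr _ _ _ _ h rfl ?_ ?_
  · intro _; rw [dif_pos (arg_lt h)]
  · intro _; rw [dif_pos (lft_lt h), dif_pos (rgt_lt h)]; exact ⟨rfl, rfl⟩

theorem subst_mk {P : Type} (f : ℕ → Form ℕ) (σ : ℕ → Form P) (t : ℕ) :
    (mk f t).subst σ = mk (fun s => (f s).subst σ) t := by
  unfold mk
  split_ifs <;> rfl

theorem subst_dec_mk {P : Type} (σ : ℕ → Form P) (t : ℕ) (h : t % 9 ≠ 0) :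
    (dec t).subst σ = mk (fun s => (dec s).subst σ) t := by
  conv_lhs => rw [dec_mk t h]
  rw [subst_mk]

/-! ### Bit-coded certificates -/

/-- coded equality -/
def eqB (A s t : ℕ) : Prop := A.testBit (Nat.pair s t) = true

/-- coded rank -/
def rkB (n B s : ℕ) : ℕ := Nat.findGreatest (fun j => B.testBit (Nat.pair s j) = true) n

/-- coded levels -/
def levB (C d x : ℕ) : Prop := C.testBit (Nat.pair d x) = true

/-- coded truth values -/
def tvB (D t x r w : ℕ) : Prop := D.testBit (Nat.pair (Nat.pair t x) (Nat.pair r w)) = true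

/-- a bound for all positions used -/
def UU (n m : ℕ) : ℕ := ((n + 2 + 2 ^ m + (2 ^ (n + 1) + m)) ^ 2) ^ 2

/-- existence of a certificate below the bound, refuting the formula with number `n` -/
def CertEx (n m : ℕ) : Prop :=
  ∃ A < 2 ^ UU n m, ∃ B < 2 ^ UU n m, ∃ C < 2 ^ UU n m, ∃ D < 2 ^ UU n m,
    ∃ x0 < 2 ^ m, ∃ r0 < 2 ^ (n + 1), ∃ w0 < m,
      Cert n m (eqB A) (rkB n B) (levB C) (tvB D) ∧ levB C 0 x0 ∧ x0.testBit w0 = true ∧
        (∀ s < n + 1, ∀ t < n + 1, eqB A s t → (r0.testBit s = true ↔ r0.testBit t = true)) ∧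
          ¬ tvB D n x0 r0 w0

theorem pair_lt_sq {a b Z : ℕ} (ha : a < Z) (hb : b < Z) : Nat.pair a b < Z ^ 2 := by
  refine (Nat.pair_lt_max_add_one_sq a b).trans_le ?_
  exact Nat.pow_le_pow_left (by have := max_lt ha hb; omega) 2

theorem rkB_eq {n B s r : ℕ} (hr : r < n + 1)
    (h : ∀ j < n + 1, (B.testBit (Nat.pair s j) = true ↔ r = j)) : rkB n B s = r := by
  unfold rkB
  rw [Nat.findGreatest_eq_iff]
  refine ⟨by omega, fun _ => (h r hr).2 rfl, ?_⟩
  intro j hj hjn hcon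
  have := (h j (by omega)).1 hcon
  omega

section fwd

variable {P : Type} {W : Type v}

theorem certEx_of_refutation (V : P → W → Prop) (σ : ℕ → Form P) (n m : ℕ) (S0 : Set (Form P))
    (X0 : Set W) (w0 : W) (hw0 : w0 ∈ X0) (hns : ¬ sat V ((dec n).subst σ) X0 S0 w0)
    (ι : W → ℕ) (hιm : ∀ w ∈ X0, ι w < m)
    (hinv : ∀ l : List (Option (ℕ × ℕ)), l.length = n + 1 → Bdd n l →
      ∀ w ∈ X0, ∀ v ∈ X0, ι w = ι v →
        (w ∈ RS V (fun t => (dec t).subst σ) n S0 X0 l ↔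
          v ∈ RS V (fun t => (dec t).subst σ) n S0 X0 l)) :
    CertEx n m := by
  classical
  let h : ℕ → Form P := fun t => (dec t).subst σ
  let rep : ℕ → W := fun j => if hj : ∃ v ∈ X0, ι v = j then hj.choose else w0
  have hrep : ∀ v ∈ X0, rep (ι v) ∈ X0 ∧ ι (rep (ι v)) = ι v := by
    intro v hv
    have hj : ∃ u ∈ X0, ι u = ι v := ⟨v, hv, rfl⟩
    have : rep (ι v) = hj.choose := dif_pos hj
    rw [this]
    exact hj.choose_spec
  set Z := n + 2 + 2 ^ m + (2 ^ (n + 1) + m) with hZ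
  have hU : UU n m = (Z ^ 2) ^ 2 := rfl
  have h2m : 0 < 2 ^ m := by positivity
  have h2n : 0 < 2 ^ (n + 1) := by positivity
  have hZ1 : 1 ≤ Z ^ 2 := Nat.one_le_pow _ _ (by omega)
  have hZZ : Z ^ 2 ≤ (Z ^ 2) ^ 2 := by
    calc Z ^ 2 = (Z ^ 2) ^ 1 := by ring
      _ ≤ (Z ^ 2) ^ 2 := Nat.pow_le_pow_right hZ1 (by norm_num)
  obtain ⟨A, hA, hA'⟩ := exists_bits (UU n m) (fun i => h i.unpair.1 = h i.unpair.2)
  obtain ⟨B, hB, hB'⟩ := exists_bits (UU n m) (fun i => rank h n i.unpair.1 = i.unpair.2)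
  obtain ⟨C, hC, hC'⟩ := exists_bits (UU n m)
    (fun i => LEV V h n m S0 X0 ι i.unpair.1 i.unpair.2)
  obtain ⟨D, hD, hD'⟩ := exists_bits (UU n m)
    (fun i => TV V h n S0 X0 ι rep i.unpair.1.unpair.1 i.unpair.1.unpair.2
      i.unpair.2.unpair.1 i.unpair.2.unpair.2)
  obtain ⟨x0, hx0, hx0'⟩ := exists_bits m (fun j => ∃ v ∈ X0, ι v = j)
  obtain ⟨r0, hr0, hr0'⟩ := exists_bits (n + 1) (fun s => h s ∈ S0)
  have heq : ∀ s < n + 1, ∀ t < n + 1, (eqB A s t ↔ h s = h t) := by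
    intro s hs t ht
    unfold eqB
    rw [hA' _ (by rw [hU]; exact (pair_lt_sq (by omega) (by omega)).trans_le hZZ)]
    rw [Nat.unpair_pair]
  have hrk : ∀ s < n + 1, rkB n B s = rank h n s := by
    intro s hs
    refine rkB_eq (rank_lt h n s hs) ?_
    intro j hj
    rw [hB' _ (by rw [hU]; exact (pair_lt_sq (by omega) (by omega)).trans_le hZZ)]
    rw [Nat.unpair_pair]
  have hlev : ∀ d < n + 2, ∀ x < 2 ^ m, (levB C d x ↔ LEV V h n m S0 X0 ι d x) := by
    intro d hd x hx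
    unfold levB
    rw [hC' _ (by rw [hU]; exact (pair_lt_sq (by omega) (by omega)).trans_le hZZ)]
    rw [Nat.unpair_pair]
  have htv : ∀ t < n + 1, ∀ x < 2 ^ m, ∀ r < 2 ^ (n + 1), ∀ w < m,
      (tvB D t x r w ↔ TV V h n S0 X0 ι rep t x r w) := by
    intro t ht x hx r hr w hw
    unfold tvB
    rw [hD' _ (by
      rw [hU]
      exact pair_lt_sq (pair_lt_sq (by omega) (by omega)) (pair_lt_sq (by omega) (by omega)))]
    simp only [Nat.unpair_pair]
  have hXX : XX ι X0 x0 = X0 := by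
    ext v
    constructor
    · intro hv; exact hv.1
    · intro hv; exact ⟨hv, (hx0' _ (hιm v hv)).2 ⟨v, hv, rfl⟩⟩
  have hSR : SR h n S0 r0 = S0 := by
    ext s
    constructor
    · rintro (⟨t, ht, ht', rfl⟩ | ⟨_, h2⟩)
      · exact (hr0' t ht).1 ht'
      · exact h2
    · intro hs
      by_cases hex : ∃ t < n + 1, h t = s
      · obtain ⟨t, ht, rfl⟩ := hex
        exact Or.inl ⟨t, ht, (hr0' t ht).2 hs, rfl⟩
      · refine Or.inr ⟨fun t ht hts => hex ⟨t, ht, hts⟩, hs⟩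
  refine ⟨A, hA, B, hB, C, hC, D, hD, x0, hx0, r0, hr0, ι w0, hιm w0 hw0, ?_, ?_, ?_, ?_, ?_⟩
  · exact cert_forward V h (fun t ht => subst_dec_mk σ t ht) n m S0 X0 ι hinv hιm rep hrep
      (eqB A) (rkB n B) (levB C) (tvB D) heq hrk hlev htv
  · rw [hlev 0 (by omega) x0 hx0]
    refine ⟨⟨[], rfl, fun e he => by simp at he, ?_⟩, ?_⟩
    · rw [hXX]; rfl
    · intro j hj hj'; exact (hx0' j hj).1 hj'
  · exact (hx0' _ (hιm w0 hw0)).2 ⟨w0, hw0, rfl⟩
  · intro s hs t ht hst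
    rw [hr0' s hs, hr0' t ht, (heq s hs t ht).1 hst]
  · rw [htv n (by omega) x0 hx0 r0 hr0 _ (hιm w0 hw0)]
    unfold TV
    rw [hXX, hSR]
    intro hcon
    apply hns
    have hr := hrep w0 hw0
    have := hinv (List.replicate n none ++ [some (n, r0)]) (by simp)
      (Bdd_pad n _ n (by
        intro e he p hp
        rw [List.mem_singleton.1 he] at hp
        injection hp with hp
        rw [← hp]
        exact ⟨Nat.lt_succ_self n, hr0⟩)) w0 hw0 (rep (ι w0)) hr.1 hr.2.symm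
    rw [RS_pad] at this
    have h2 : rep (ι w0) ∈ RS V h n S0 X0 [some (n, r0)] := by
      refine ⟨hr.1, ?_⟩
      rw [hSR]
      exact hcon
    have h3 := this.2 h2
    have h4 := h3.2
    change sat V (h n) X0 (SR h n S0 r0) w0 at h4
    rw [hSR] at h4
    exact h4

end fwd

section bwd

variable {P : Type}

theorem refutation_of_certEx (V : P → ℕ → Prop) (q : P) (n m : ℕ)
    (hsep : ∃ Lp : List P, ∀ w < m, ∀ w' < m, (∀ p ∈ Lp, (V p w ↔ V p w')) → w = w')
    (hC : CertEx n m) :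
    ∃ (σ : ℕ → Form P) (X : Set ℕ) (S : Set (Form P)) (w : ℕ), w ∈ X ∧
      ¬ sat V ((dec n).subst σ) X S w := by
  obtain ⟨A, -, B, -, C, -, D, -, x0, hx0, r0, hr0, w0, hw0, cert, hlev, hxw, hinv, hno⟩ := hC
  let g := gg V q n m (eqB A) (rkB n B) (tvB D)
  have hg : ∀ t, t < n + 1 → (dec t).subst (fun p => g (9 * p)) = g t := by
    intro t
    induction t using Nat.strong_induction_on with
    | _ t ih =>
      intro ht
      by_cases h0 : t % 9 = 0
      · rw [dec_atom t h0]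
        change g (9 * (t / 9)) = g t
        congr 1
        omega
      · rw [subst_dec_mk _ t h0]
        change _ = gg V q n m (eqB A) (rkB n B) (tvB D) t
        rw [gg_mk cert t ht h0]
        refine mk_congr _ _ _ _ h0 rfl ?_ ?_
        · intro _
          exact ih _ (arg_lt h0) ((arg_le t).trans_lt ht)
        · intro _
          exact ⟨ih _ (lft_lt h0) ((lft_le t).trans_lt ht), ih _ (rgt_lt h0) ((rgt_le t).trans_lt ht)⟩
  refine ⟨fun p => g (9 * p), Xb m x0, {φ | ∃ t < n + 1, r0.testBit t = true ∧ g t = φ}, w0,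
    ⟨hw0, hxw⟩, ?_⟩
  rw [hg n (by omega)]
  rw [gg_truth cert hsep (rkB n B n + 1) n (by omega) (by omega) 0 (by omega) x0 hx0 hlev
    (by have := cert.rk_le n (by omega); omega) r0 hr0 _ ?_ w0 hw0 hxw]
  · exact hno
  · intro s hs
    constructor
    · intro h; exact ⟨s, hs, h, rfl⟩
    · rintro ⟨t, ht, ht', hts⟩
      have := gg_inj cert hsep _ t ht s hs (Nat.lt_succ_self _) hts
      exact (hinv t ht s hs this).1 ht'

end bwd

end Pool.Agent.Lib_helper77.Ent
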