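import Pool.Agent.Lib_helper77.EntFinal

/-!
# The certificate predicate is primitive recursive
-/

set_option autoImplicit false

namespace Pool.Agent.Lib_helper77.Ent

section prim

variable {α : Type} [Primcodable α]

theorem pr_ball {f : α → ℕ} {p : α → ℕ → Prop} (hf : Primrec f)
    (hp : PrimrecPred (fun y : α × ℕ => p y.1 y.2)) :
    PrimrecPred (fun a => ∀ x, x < f a → p a x) := by
  have h1 : PrimrecRel (fun (x : ℕ) (a : α) => p a x) := by
    exact hp.comp (Primrec.pair Primrec.snd Primrec.fst)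
  have h2 := (h1.forall_mem_list).comp (Primrec.list_range.comp hf) Primrec.id
  exact h2.of_eq (fun a => by simp)

theorem pr_bex {f : α → ℕ} {p : α → ℕ → Prop} (hf : Primrec f)
    (hp : PrimrecPred (fun y : α × ℕ => p y.1 y.2)) :
    PrimrecPred (fun a => ∃ x, x < f a ∧ p a x) := by
  have h1 : PrimrecRel (fun (x : ℕ) (a : α) => p a x) := by
    exact hp.comp (Primrec.pair Primrec.snd Primrec.fst)
  have h2 := (h1.exists_mem_list).comp (Primrec.list_range.comp hf) Primrec.id
  exact h2.of_eq (fun a => by simp)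

theorem pr_and {p q : α → Prop} (hp : PrimrecPred p) (hq : PrimrecPred q) :
    PrimrecPred (fun a => p a ∧ q a) := hp.and hq

theorem pr_or {p q : α → Prop} (hp : PrimrecPred p) (hq : PrimrecPred q) :
    PrimrecPred (fun a => p a ∨ q a) := hp.or hq

theorem pr_not {p : α → Prop} (hp : PrimrecPred p) :
    PrimrecPred (fun a => ¬ p a) := hp.not

theorem pr_imp {p q : α → Prop} (hp : PrimrecPred p) (hq : PrimrecPred q) :
    PrimrecPred (fun a => p a → q a) :=
  (hp.not.or hq).of_eq (fun a => by tauto)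

theorem pr_iff {p q : α → Prop} (hp : PrimrecPred p) (hq : PrimrecPred q) :
    PrimrecPred (fun a => p a ↔ q a) :=
  ((pr_imp hp hq).and (pr_imp hq hp)).of_eq (fun a => by tauto)

theorem pr_lt {f g : α → ℕ} (hf : Primrec f) (hg : Primrec g) :
    PrimrecPred (fun a => f a < g a) := Primrec.nat_lt.comp hf hg

theorem pr_eq {f g : α → ℕ} (hf : Primrec f) (hg : Primrec g) :
    PrimrecPred (fun a => f a = g a) := Primrec.eq.comp hf hg

theorem pr_add {f g : α → ℕ} (hf : Primrec f) (hg : Primrec g) :
    Primrec (fun a => f a + g a) := Primrec.nat_add.comp hf hg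

theorem pr_mul {f g : α → ℕ} (hf : Primrec f) (hg : Primrec g) :
    Primrec (fun a => f a * g a) := Primrec.nat_mul.comp hf hg

theorem pr_pow {f g : α → ℕ} (hf : Primrec f) (hg : Primrec g) :
    Primrec (fun a => f a ^ g a) :=
  (Primrec₂.unpaired'.1 Nat.Primrec.pow).comp hf hg

theorem pr_mod {f g : α → ℕ} (hf : Primrec f) (hg : Primrec g) :
    Primrec (fun a => f a % g a) := Primrec.nat_mod.comp hf hg

theorem pr_div {f g : α → ℕ} (hf : Primrec f) (hg : Primrec g) :
    Primrec (fun a => f a / g a) := Primrec.nat_div.comp hf hg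

theorem pr_pair {f g : α → ℕ} (hf : Primrec f) (hg : Primrec g) :
    Primrec (fun a => Nat.pair (f a) (g a)) := Primrec₂.natPair.comp hf hg

theorem pr_arg {f : α → ℕ} (hf : Primrec f) : Primrec (fun a => arg (f a)) :=
  pr_div hf (Primrec.const 9)

theorem pr_lft {f : α → ℕ} (hf : Primrec f) : Primrec (fun a => lft (f a)) :=
  Primrec.fst.comp (Primrec.unpair.comp (pr_div hf (Primrec.const 9)))

theorem pr_rgt {f : α → ℕ} (hf : Primrec f) : Primrec (fun a => rgt (f a)) :=
  Primrec.snd.comp (Primrec.unpair.comp (pr_div hf (Primrec.const 9)))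

theorem pr_testBit {f g : α → ℕ} (hf : Primrec f) (hg : Primrec g) :
    PrimrecPred (fun a => (f a).testBit (g a) = true) := by
  refine (pr_eq (pr_mod (pr_div hf (pr_pow (Primrec.const 2) hg)) (Primrec.const 2))
    (Primrec.const 1)).of_eq (fun a => ?_)
  rw [Nat.testBit_eq_decide_div_mod_eq]
  simp

theorem pr_eqB {A s t : α → ℕ} (hA : Primrec A) (hs : Primrec s) (ht : Primrec t) :
    PrimrecPred (fun a => eqB (A a) (s a) (t a)) := pr_testBit hA (pr_pair hs ht)

theorem pr_levB {A s t : α → ℕ} (hA : Primrec A) (hs : Primrec s) (ht : Primrec t) :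
    PrimrecPred (fun a => levB (A a) (s a) (t a)) := pr_testBit hA (pr_pair hs ht)

theorem pr_tvB {D t x r w : α → ℕ} (hD : Primrec D) (ht : Primrec t) (hx : Primrec x)
    (hr : Primrec r) (hw : Primrec w) :
    PrimrecPred (fun a => tvB (D a) (t a) (x a) (r a) (w a)) :=
  pr_testBit hD (pr_pair (pr_pair ht hx) (pr_pair hr hw))

theorem pr_rkB {n B s : α → ℕ} (hn : Primrec n) (hB : Primrec B) (hs : Primrec s) :
    Primrec (fun a => rkB (n a) (B a) (s a)) := by
  refine Primrec.nat_findGreatest hn ?_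
  exact pr_testBit (hB.comp Primrec.fst) (pr_pair (hs.comp Primrec.fst) Primrec.snd)

theorem pr_id : Primrec (fun a : α => a) := Primrec.id

theorem pr_fst {β γ : Type} [Primcodable β] [Primcodable γ] {f : α → β × γ} (hf : Primrec f) :
    Primrec (fun a => (f a).1) := Primrec.fst.comp hf

theorem pr_snd {β γ : Type} [Primcodable β] [Primcodable γ] {f : α → β × γ} (hf : Primrec f) :
    Primrec (fun a => (f a).2) := Primrec.snd.comp hf

end prim

theorem cert_iff (n m : ℕ) (eq : ℕ → ℕ → Prop) (rk : ℕ → ℕ) (lev : ℕ → ℕ → Prop)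
    (tv : ℕ → ℕ → ℕ → ℕ → Prop) : Cert n m eq rk lev tv ↔
  (∀ s < n + 1, eq s s) ∧
  (∀ s < n + 1, ∀ t < n + 1, eq s t → eq t s) ∧
  (∀ s < n + 1, ∀ t < n + 1, ∀ u < n + 1, eq s t → eq t u → eq s u) ∧
  (∀ s < n + 1, ∀ t < n + 1, s % 9 ≠ 0 → t % 9 ≠ 0 → eq s t →
    s % 9 = t % 9 ∧ (s % 9 < 4 → eq (arg s) (arg t)) ∧
      (¬ s % 9 < 4 → eq (lft s) (lft t) ∧ eq (rgt s) (rgt t))) ∧
  (∀ s < n + 1, ∀ t < n + 1, s % 9 ≠ 0 → s % 9 = t % 9 →
    (s % 9 < 4 → eq (arg s) (arg t)) →
      (¬ s % 9 < 4 → eq (lft s) (lft t) ∧ eq (rgt s) (rgt t)) → eq s t) ∧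
  (∀ s < n + 1, ∀ t < n + 1, eq s t → rk s = rk t) ∧
  (∀ s < n + 1, rk s < n + 1) ∧
  (∀ s < n + 1, s % 9 ≠ 0 → (s % 9 < 4 → rk (arg s) < rk s) ∧
    (¬ s % 9 < 4 → rk (lft s) < rk s ∧ rk (rgt s) < rk s)) ∧
  (∀ t < n + 1, ∀ x < 2 ^ m, ∀ r < 2 ^ (n + 1), ∀ r' < 2 ^ (n + 1),
    (∀ s < n + 1, rk s < rk t → (r.testBit s = true ↔ r'.testBit s = true)) →
      ∀ w < m, x.testBit w = true → (tv t x r w ↔ tv t x r' w)) ∧
  (∀ s < n + 1, ∀ t < n + 1, eq s t → ∀ x < 2 ^ m, ∀ r < 2 ^ (n + 1),
      ∀ w < m, x.testBit w = true → (tv s x r w ↔ tv t x r w)) ∧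
  (∀ d < n + 1, ∀ x < 2 ^ m, lev d x → ∀ r < 2 ^ (n + 1), ∀ t < n + 1, rk t + d < n + 1 →
    ∀ w < m, x.testBit w = true →
      (t % 9 = 1 → (tv t x r w ↔ ¬ tv (arg t) x r w)) ∧
      (t % 9 = 2 → (tv t x r w ↔ ∀ v < m, x.testBit v = true → tv (arg t) x r v)) ∧
      (t % 9 = 3 → (tv t x r w ↔ ∃ s < n + 1, r.testBit s = true ∧ eq s (arg t))) ∧
      (t % 9 = 4 → (tv t x r w ↔ tv (lft t) x r w ∧ tv (rgt t) x r w)) ∧
      (t % 9 = 5 → ∀ x' < 2 ^ m,
        (∀ v < m, (x'.testBit v = true ↔ x.testBit v = true ∧ tv (lft t) x r v)) →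
          lev (d + 1) x' ∧ (tv t x r w ↔ (tv (lft t) x r w → tv (rgt t) x' r w))) ∧
      (t % 9 = 6 → ∀ r' < 2 ^ (n + 1),
        (∀ s < n + 1, (r'.testBit s = true ↔ r.testBit s = true ∨ eq s (lft t))) →
          (tv t x r w ↔ tv (rgt t) x r' w)) ∧
      (t % 9 = 7 → ∀ r' < 2 ^ (n + 1),
        (∀ s < n + 1, (r'.testBit s = true ↔ r.testBit s = true ∧ ¬ eq s (lft t))) →
          (tv t x r w ↔ tv (rgt t) x r' w)) ∧
      (t % 9 = 8 → ∀ r' < 2 ^ (n + 1),
        (∀ s < n + 1, (r'.testBit s = true ↔ r.testBit s = true ∨ eq s (lft t))) →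
          (tv t x r w ↔ ((∀ v < m, x.testBit v = true → tv (lft t) x r v) →
            tv (rgt t) x r' w)))) :=
  ⟨fun h => ⟨h.refl, h.symm, h.trans, h.inj, h.cong, h.rk_eq, h.rk_le, h.rk_lt, h.loc, h.tv_eq,
    h.sem⟩, fun h => ⟨h.1, h.2.1, h.2.2.1, h.2.2.2.1, h.2.2.2.2.1, h.2.2.2.2.2.1, h.2.2.2.2.2.2.1,
    h.2.2.2.2.2.2.2.1, h.2.2.2.2.2.2.2.2.1, h.2.2.2.2.2.2.2.2.2.1, h.2.2.2.2.2.2.2.2.2.2⟩⟩

theorem pr_cert : PrimrecPred (fun y : ℕ × ℕ × ℕ × ℕ × ℕ × ℕ =>
    Cert y.1 y.2.1 (eqB y.2.2.1) (rkB y.1 y.2.2.2.1) (levB y.2.2.2.2.1) (tvB y.2.2.2.2.2)) := by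
  simp only [cert_iff]
  repeat' first
    | with_reducible exact pr_id
    | with_reducible exact Primrec.const _
    | with_reducible apply pr_and
    | with_reducible apply pr_ball
    | with_reducible apply pr_bex
    | with_reducible apply pr_not
    | with_reducible apply pr_imp
    | with_reducible apply pr_iff
    | with_reducible apply pr_or
    | with_reducible apply pr_eqB
    | with_reducible apply pr_levB
    | with_reducible apply pr_tvB
    | with_reducible apply pr_testBit
    | with_reducible apply pr_lt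
    | with_reducible apply pr_eq
    | with_reducible apply pr_rkB
    | with_reducible apply pr_add
    | with_reducible apply pr_mul
    | with_reducible apply pr_pow
    | with_reducible apply pr_mod
    | with_reducible apply pr_arg
    | with_reducible apply pr_lft
    | with_reducible apply pr_rgt
    | with_reducible apply pr_fst
    | with_reducible apply pr_snd

theorem pr_cert' {α : Type} [Primcodable α] {n m A B C D : α → ℕ} (hn : Primrec n)
    (hm : Primrec m) (hA : Primrec A) (hB : Primrec B) (hC : Primrec C) (hD : Primrec D) :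
    PrimrecPred (fun a =>
      Cert (n a) (m a) (eqB (A a)) (rkB (n a) (B a)) (levB (C a)) (tvB (D a))) :=
  pr_cert.comp (Primrec.pair hn (Primrec.pair hm (Primrec.pair hA (Primrec.pair hB
    (Primrec.pair hC hD)))))

theorem pr_certEx : PrimrecPred (fun y : ℕ × ℕ => CertEx y.1 y.2) := by
  simp only [CertEx, UU]
  repeat' first
    | with_reducible exact pr_id
    | with_reducible exact Primrec.const _
    | with_reducible apply pr_cert'
    | with_reducible apply pr_and
    | with_reducible apply pr_ball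
    | with_reducible apply pr_bex
    | with_reducible apply pr_not
    | with_reducible apply pr_imp
    | with_reducible apply pr_iff
    | with_reducible apply pr_or
    | with_reducible apply pr_eqB
    | with_reducible apply pr_levB
    | with_reducible apply pr_tvB
    | with_reducible apply pr_testBit
    | with_reducible apply pr_lt
    | with_reducible apply pr_eq
    | with_reducible apply pr_rkB
    | with_reducible apply pr_add
    | with_reducible apply pr_mul
    | with_reducible apply pr_pow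
    | with_reducible apply pr_mod
    | with_reducible apply pr_arg
    | with_reducible apply pr_lft
    | with_reducible apply pr_rgt
    | with_reducible apply pr_fst
    | with_reducible apply pr_snd

theorem pr_mm (k : ℕ∞) : Primrec (fun n => mm k n) := by
  by_cases hk : k = ⊤
  · subst hk
    have : (fun n => mm ⊤ n) = fun n : ℕ => 2 ^ (((n + 1) * 2 ^ (n + 1) + 1) ^ (n + 1)) := by
      funext n; rw [mm_top]; rfl
    rw [this]
    repeat' first
      | with_reducible exact pr_id
      | with_reducible exact Primrec.const _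
      | with_reducible apply pr_add
      | with_reducible apply pr_mul
      | with_reducible apply pr_pow
  · have : (fun n => mm k n) = fun _ : ℕ => 2 ^ k.toNat := by
      funext n; simp [mm, hk]
    rw [this]
    exact Primrec.const _

theorem pr_letter (k : ℕ∞) : PrimrecPred (fun i : ℕ => (i : ℕ∞) < k) := by
  by_cases hk : k = ⊤
  · subst hk
    exact (pr_eq (Primrec.const 0) (Primrec.const 0)).of_eq (fun n => by simp)
  · obtain ⟨k', rfl⟩ := ENat.ne_top_iff_exists.1 hk
    exact (pr_lt pr_id (Primrec.const k')).of_eq (fun n => by exact_mod_cast Iff.rfl)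

theorem pr_letter' {α : Type} [Primcodable α] (k : ℕ∞) {f : α → ℕ} (hf : Primrec f) :
    PrimrecPred (fun a => ((f a : ℕ) : ℕ∞) < k) :=
  (pr_letter k).comp hf

theorem pr_isCode (k : ℕ∞) : PrimrecPred (fun n => ∃ φ : Form (Letter k), code φ = n) := by
  simp only [isCode_iff]
  repeat' first
    | with_reducible exact pr_id
    | with_reducible exact Primrec.const _
    | with_reducible apply pr_and
    | with_reducible apply pr_ball
    | with_reducible apply pr_bex
    | with_reducible apply pr_not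
    | with_reducible apply pr_imp
    | with_reducible apply pr_letter'
    | with_reducible apply pr_testBit
    | with_reducible apply pr_lt
    | with_reducible apply pr_eq
    | with_reducible apply pr_add
    | with_reducible apply pr_pow
    | with_reducible apply pr_mod
    | with_reducible apply pr_div
    | with_reducible apply pr_arg
    | with_reducible apply pr_lft
    | with_reducible apply pr_rgt
    | with_reducible apply pr_fst
    | with_reducible apply pr_snd

universe u

/-- The set of numbers of schematically valid formulas is primitive recursive. -/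
theorem pr_schematicallyValid (k : ℕ∞) : PrimrecPred (fun n : ℕ =>
    ∃ φ : Form (Letter k), code φ = n ∧ SchematicallyValid.{u} φ) := by
  simp only [schematic_set_iff]
  exact (pr_isCode k).and (pr_certEx.comp (Primrec.pair Primrec.id (pr_mm k))).not

end Pool.Agent.Lib_helper77.Ent
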