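import Pool.Agent.Lib_helper77.EntDefs

/-!
# Single-class semantics for the logic of entertainment

`sat V φ X S w`: truth of `φ` at the world `w` when the current worlds are `X` and the agent entertains
exactly the formulas of `S`.
-/

set_option autoImplicit false

namespace Pool.Agent.Lib_helper77.Ent

universe u v

section sem

variable {P : Type} {W : Type u}

/-- Truth at `w` in the one-class model with worlds `X`, valuation `V` and awareness set `S`. -/
def sat (V : P → W → Prop) : Form P → Set W → Set (Form P) → W → Prop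
  | .atom p, _, _, w => V p w
  | .neg φ, X, S, w => ¬ sat V φ X S w
  | .and φ ψ, X, S, w => sat V φ X S w ∧ sat V ψ X S w
  | .know φ, X, S, _ => ∀ v ∈ X, sat V φ X S v
  | .ent φ, _, S, _ => φ ∈ S
  | .ann ψ χ, X, S, w => sat V ψ X S w → sat V χ {v | v ∈ X ∧ sat V ψ X S v} S w
  | .add ψ χ, X, S, w => sat V χ X (S ∪ {ψ}) w
  | .drop ψ χ, X, S, w => sat V χ X (S \ {ψ}) w
  | .real ψ χ, X, S, w => (∀ v ∈ X, sat V ψ X S v) → sat V χ X (S ∪ {ψ}) w

/-- The number of symbols of a formula. -/
def Form.size : Form P → ℕ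
  | .atom _ => 1
  | .neg φ => φ.size + 1
  | .and φ ψ => φ.size + ψ.size + 1
  | .know φ => φ.size + 1
  | .ent φ => φ.size + 1
  | .ann φ ψ => φ.size + ψ.size + 1
  | .add φ ψ => φ.size + ψ.size + 1
  | .drop φ ψ => φ.size + ψ.size + 1
  | .real φ ψ => φ.size + ψ.size + 1

/-- Truth of `φ` depends only on the entertained formulas smaller than `φ`. -/
theorem sat_congr_size (V : P → W → Prop) (φ : Form P) :
    ∀ (X : Set W) (S S' : Set (Form P)) (w : W),
      (∀ s : Form P, s.size < φ.size → (s ∈ S ↔ s ∈ S')) →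
        (sat V φ X S w ↔ sat V φ X S' w) := by
  induction φ with
  | atom p => intro X S S' w _; exact Iff.rfl
  | neg φ ih =>
    intro X S S' w h
    exact not_congr (ih X S S' w fun s hs => h s (by simp only [Form.size]; omega))
  | and φ ψ ih1 ih2 =>
    intro X S S' w h
    exact and_congr (ih1 X S S' w fun s hs => h s (by simp only [Form.size]; omega))
      (ih2 X S S' w fun s hs => h s (by simp only [Form.size]; omega))
  | know φ ih =>
    intro X S S' w h
    exact forall₂_congr fun v _ => ih X S S' v fun s hs => h s (by simp only [Form.size]; omega)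
  | ent φ ih =>
    intro X S S' w h
    exact h φ (by simp only [Form.size]; omega)
  | ann φ ψ ih1 ih2 =>
    intro X S S' w h
    have h1 : ∀ v, sat V φ X S v ↔ sat V φ X S' v := fun v =>
      ih1 X S S' v fun s hs => h s (by simp only [Form.size]; omega)
    have h2 : {v | v ∈ X ∧ sat V φ X S v} = {v | v ∈ X ∧ sat V φ X S' v} := by
      ext v; simp only [Set.mem_ofPred_eq, h1 v]
    change (sat V φ X S w → sat V ψ _ S w) ↔ (sat V φ X S' w → sat V ψ _ S' w)
    rw [h2]
    exact imp_congr (h1 w) (ih2 _ S S' w fun s hs => h s (by simp only [Form.size]; omega))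
  | add φ ψ ih1 ih2 =>
    intro X S S' w h
    exact ih2 _ _ _ w fun s hs => by
      have := h s (by simp only [Form.size]; omega)
      simp only [Set.mem_union, this]
  | drop φ ψ ih1 ih2 =>
    intro X S S' w h
    exact ih2 _ _ _ w fun s hs => by
      have := h s (by simp only [Form.size]; omega)
      simp only [Set.mem_sdiff, this]
  | real φ ψ ih1 ih2 =>
    intro X S S' w h
    refine imp_congr (forall₂_congr fun v _ =>
      ih1 X S S' v fun s hs => h s (by simp only [Form.size]; omega)) ?_
    exact ih2 _ _ _ w fun s hs => by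
      have := h s (by simp only [Form.size]; omega)
      simp only [Set.mem_union, this]

/-- Worlds with the same valuation satisfy the same formulas. -/
theorem sat_congr_val (V : P → W → Prop) (w w' : W) (hV : ∀ p, V p w ↔ V p w') (φ : Form P) :
    ∀ (X : Set W) (S : Set (Form P)), (sat V φ X S w ↔ sat V φ X S w') := by
  induction φ with
  | atom p => intro X S; exact hV p
  | neg φ ih => intro X S; exact not_congr (ih X S)
  | and φ ψ ih1 ih2 => intro X S; exact and_congr (ih1 X S) (ih2 X S)
  | know φ ih => intro X S; exact Iff.rfl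
  | ent φ ih => intro X S; exact Iff.rfl
  | ann φ ψ ih1 ih2 => intro X S; exact imp_congr (ih1 X S) (ih2 _ S)
  | add φ ψ ih1 ih2 => intro X S; exact ih2 _ _
  | drop φ ψ ih1 ih2 => intro X S; exact ih2 _ _
  | real φ ψ ih1 ih2 => intro X S; exact imp_congr Iff.rfl (ih2 _ _)

end sem

section model

variable {P : Type} {W : Type v}

/-- Truth in a model is truth in the class of the world, read through a map `f` onto `X`. -/
theorem Sat_iff_sat (V : P → W → Prop) (φ : Form P) :
    ∀ (M : Model.{u} P) (w : M.World) (f : M.World → W) (X : Set W) (S : Set (Form P)),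
      (∀ x, x ∈ X ↔ ∃ v, M.rel w v ∧ f v = x) →
      (∀ v, M.rel w v → ∀ p, (M.val p v ↔ V p (f v))) →
      M.aware w = S →
      (Sat φ M w ↔ sat V φ X S (f w)) := by
  induction φ with
  | atom p => intro M w f X S hX hV hS; exact hV w (M.equivalence.refl w) p
  | neg φ ih => intro M w f X S hX hV hS; exact not_congr (ih M w f X S hX hV hS)
  | and φ ψ ih1 ih2 =>
    intro M w f X S hX hV hS
    exact and_congr (ih1 M w f X S hX hV hS) (ih2 M w f X S hX hV hS)
  | know φ ih =>
    intro M w f X S hX hV hS
    have key : ∀ v, M.rel w v → (Sat φ M v ↔ sat V φ X S (f v)) := by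
      intro v hv
      refine ih M v f X S ?_ ?_ ?_
      · intro x
        rw [hX x]
        constructor
        · rintro ⟨u, hu, rfl⟩
          exact ⟨u, M.equivalence.trans (M.equivalence.symm hv) hu, rfl⟩
        · rintro ⟨u, hu, rfl⟩
          exact ⟨u, M.equivalence.trans hv hu, rfl⟩
      · intro u hu p
        exact hV u (M.equivalence.trans hv hu) p
      · rw [← hS]; exact (M.aware_const w v hv).symm
    constructor
    · intro h x hx
      obtain ⟨v, hv, rfl⟩ := (hX x).1 hx
      exact (key v hv).1 (h v hv)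
    · intro h v hv
      exact (key v hv).2 (h (f v) ((hX _).2 ⟨v, hv, rfl⟩))
  | ent φ ih => intro M w f X S hX hV hS; subst hS; exact Iff.rfl
  | ann φ ψ ih1 ih2 =>
    intro M w f X S hX hV hS
    have key : ∀ v, M.rel w v → (Sat φ M v ↔ sat V φ X S (f v)) := by
      intro v hv
      refine ih1 M v f X S ?_ ?_ ?_
      · intro x
        rw [hX x]
        constructor
        · rintro ⟨u, hu, rfl⟩
          exact ⟨u, M.equivalence.trans (M.equivalence.symm hv) hu, rfl⟩
        · rintro ⟨u, hu, rfl⟩
          exact ⟨u, M.equivalence.trans hv hu, rfl⟩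
      · intro u hu p
        exact hV u (M.equivalence.trans hv hu) p
      · rw [← hS]; exact (M.aware_const w v hv).symm
    have k0 := key w (M.equivalence.refl w)
    change (∀ h : Sat φ M w, Sat ψ (M.restrict (Sat φ M)) ⟨w, h⟩) ↔
      (sat V φ X S (f w) → sat V ψ {v | v ∈ X ∧ sat V φ X S v} S (f w))
    constructor
    · intro h h'
      have hw := k0.2 h'
      refine (ih2 (M.restrict (Sat φ M)) ⟨w, hw⟩ (fun v => f v.1) _ S ?_ ?_ ?_).1 (h hw)
      · intro x
        constructor
        · rintro ⟨hx, hx'⟩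
          obtain ⟨v, hv, rfl⟩ := (hX x).1 hx
          exact ⟨⟨v, (key v hv).2 hx'⟩, hv, rfl⟩
        · rintro ⟨v, hv, rfl⟩
          exact ⟨(hX _).2 ⟨v.1, hv, rfl⟩, (key v.1 hv).1 v.2⟩
      · intro v hv p
        exact hV v.1 hv p
      · exact hS
    · intro h hw
      refine (ih2 (M.restrict (Sat φ M)) ⟨w, hw⟩ (fun v => f v.1) _ S ?_ ?_ ?_).2 (h (k0.1 hw))
      · intro x
        constructor
        · rintro ⟨hx, hx'⟩
          obtain ⟨v, hv, rfl⟩ := (hX x).1 hx
          exact ⟨⟨v, (key v hv).2 hx'⟩, hv, rfl⟩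
        · rintro ⟨v, hv, rfl⟩
          exact ⟨(hX _).2 ⟨v.1, hv, rfl⟩, (key v.1 hv).1 v.2⟩
      · intro v hv p
        exact hV v.1 hv p
      · exact hS
  | add φ ψ ih1 ih2 =>
    intro M w f X S hX hV hS
    refine ih2 (M.addAware φ) w f X (S ∪ {φ}) hX hV ?_
    rw [← hS]; rfl
  | drop φ ψ ih1 ih2 =>
    intro M w f X S hX hV hS
    refine ih2 (M.dropAware φ) w f X (S \ {φ}) hX hV ?_
    rw [← hS]; rfl
  | real φ ψ ih1 ih2 =>
    intro M w f X S hX hV hS
    have key : ∀ v, M.rel w v → (Sat φ M v ↔ sat V φ X S (f v)) := by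
      intro v hv
      refine ih1 M v f X S ?_ ?_ ?_
      · intro x
        rw [hX x]
        constructor
        · rintro ⟨u, hu, rfl⟩
          exact ⟨u, M.equivalence.trans (M.equivalence.symm hv) hu, rfl⟩
        · rintro ⟨u, hu, rfl⟩
          exact ⟨u, M.equivalence.trans hv hu, rfl⟩
      · intro u hu p
        exact hV u (M.equivalence.trans hv hu) p
      · rw [← hS]; exact (M.aware_const w v hv).symm
    have k1 : (∀ v, M.rel w v → Sat φ M v) ↔ (∀ x ∈ X, sat V φ X S x) := by
      constructor
      · intro h x hx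
        obtain ⟨v, hv, rfl⟩ := (hX x).1 hx
        exact (key v hv).1 (h v hv)
      · intro h v hv
        exact (key v hv).2 (h (f v) ((hX _).2 ⟨v, hv, rfl⟩))
    refine imp_congr k1 ?_
    refine ih2 (M.addAware φ) w f X (S ∪ {φ}) hX hV ?_
    rw [← hS]; rfl

/-- A formula is valid iff it is true in all one-class models. -/
theorem valid_iff (φ : Form P) :
    Valid.{u} φ ↔ ∀ (W : Type u) (V : P → W → Prop) (X : Set W) (S : Set (Form P)) (w : W),
      w ∈ X → sat V φ X S w := by
  constructor
  · intro h W V X S w hw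
    let M : Model.{u} P :=
      { World := X
        rel := fun _ _ => True
        equivalence := ⟨fun _ => trivial, fun _ => trivial, fun _ _ => trivial⟩
        val := fun p v => V p v.1
        aware := fun _ => S
        aware_const := fun _ _ _ => rfl }
    refine (Sat_iff_sat V φ M ⟨w, hw⟩ (fun v => v.1) X S ?_ ?_ rfl).1 (h M ⟨w, hw⟩)
    · intro x
      exact ⟨fun hx => ⟨⟨x, hx⟩, trivial, rfl⟩, fun ⟨v, _, hv⟩ => hv ▸ v.2⟩
    · intro v _ p; exact Iff.rfl
  · intro h M w
    refine (Sat_iff_sat M.val φ M w id {v | M.rel w v} (M.aware w) ?_ ?_ rfl).2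
      (h M.World M.val _ _ w (M.equivalence.refl w))
    · intro x
      exact ⟨fun hx => ⟨x, hx, rfl⟩, fun ⟨v, hv, hv'⟩ => hv' ▸ hv⟩
    · intro v _ p; exact Iff.rfl

end model

end Pool.Agent.Lib_helper77.Ent
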